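import Pool.Agent.Zk48.CE.Flow

set_option autoImplicit false

namespace Pool.Agent.Zk48.CE

open Real Set Filter Topology

noncomputable section

theorem T_pos {e ν : ℝ} (h0 : 0 < e) (h1 : e < 1) (hν : 0 < sin ν) : 0 < T e ν :=
  div_pos (mul_pos h0 hν) (w_pos h0 h1 ν)

theorem T_neg {e ν : ℝ} (h0 : 0 < e) (h1 : e < 1) (hν : sin ν < 0) : T e ν < 0 :=
  div_neg_of_neg_of_pos (by nlinarith) (w_pos h0 h1 ν)

/-- At a zero of `D` one has `T ≠ g` when `0 ≤ μ η` and `T > 0`, or when `μ η = 0`. -/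
theorem D'_neg {e μ η ν : ℝ} (h0 : 0 < e) (h1 : e < 1) (hs : μ ^ 2 + η ^ 2 < 1)
    (hν : sin ν ≠ 0) (hcase : (0 < sin ν ∧ 0 ≤ μ * η) ∨ μ * η = 0)
    (hD : D e μ η ν = 0) : D' e μ η ν < 0 := by
  have hw := w_pos h0 h1 ν
  have hsg := sg_pos hs ν
  have hTD := T_D' (e := e) hs hw.ne'
  rw [hD, mul_zero, zero_sub] at hTD
  have hT0 : T e ν ≠ 0 := by
    unfold T
    exact div_ne_zero (mul_ne_zero h0.ne' hν) hw.ne'
  -- T ≠ g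
  have hKrel : e ^ 2 * (μ * η / sg μ η ν) / w e ν ^ 2 =
      g μ η ν * (yy e ν ^ 2 - T e ν ^ 2)
        - (1 - kp μ η ν - g μ η ν ^ 2) * (T e ν * yy e ν) := by
    rw [K_rel hs ν]
    unfold yy T
    field_simp
  have hne : T e ν - g μ η ν ≠ 0 := by
    intro hTg
    have hg : g μ η ν = T e ν := by linarith
    have hk : kp μ η ν - 1 + yy e ν = 0 := by
      have : T e ν * (kp μ η ν - 1 + yy e ν) = 0 := by
        have := hD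
        unfold D at this
        rw [hg] at this
        linear_combination this
      exact (mul_eq_zero.mp this).resolve_left hT0
    have hk2 : kp μ η ν = 1 - yy e ν := by linarith
    rw [hg, hk2] at hKrel
    have h3 : e ^ 2 * (μ * η / sg μ η ν) / w e ν ^ 2 = - (T e ν ^ 3 * (1 / w e ν)) := by
      rw [hKrel, one_div_w hw.ne']; ring
    rcases hcase with ⟨hpos, hK⟩ | hK
    · have hT := T_pos h0 h1 hpos
      have : 0 ≤ e ^ 2 * (μ * η / sg μ η ν) / w e ν ^ 2 := by positivity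
      have : 0 < T e ν ^ 3 * (1 / w e ν) := by positivity
      linarith
    · rw [hK] at h3
      simp at h3
      rcases h3 with h3 | h3
      · exact hT0 h3
      · exact hw.ne' h3
  have hsq : 0 < (T e ν - g μ η ν) ^ 2 := by positivity
  rcases hcase with ⟨hpos, hK⟩ | hK
  · have hT := T_pos h0 h1 hpos
    have h4 : 0 ≤ e ^ 2 * (μ * η / sg μ η ν) / w e ν ^ 2 := by positivity
    have h5 : 0 < T e ν ^ 3 * (T e ν - g μ η ν) ^ 2 := by positivity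
    have h6 : T e ν * D' e μ η ν < 0 := by rw [hTD]; linarith
    by_contra hcon
    have := mul_nonneg hT.le (not_lt.mp hcon)
    linarith
  · have h6 : T e ν * D' e μ η ν = - 3 * (T e ν ^ 3 * (T e ν - g μ η ν) ^ 2) := by
      rw [hTD, hK]; simp
    have h7 : D' e μ η ν = - 3 * (T e ν ^ 2 * (T e ν - g μ η ν) ^ 2) := by
      apply mul_left_cancel₀ hT0
      rw [h6]; ring
    rw [h7]
    have : 0 < T e ν ^ 2 * (T e ν - g μ η ν) ^ 2 := by positivity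
    linarith

theorem alg1 (T g l : ℝ) (hne : 2 * T - g ≠ 0) :
    ((g ^ 2 + 1 - (1 + T ^ 2 - g * T - g * l)) * T + (4 * g * (1 + T ^ 2 - g * T - g * l)
  + (g ^ 2 + 1 - (1 + T ^ 2 - g * T - g * l)) * l + g * (-1 - l ^ 2))) / (2 * T - g) =
  T ^ 2 + l * T - 3 * (T * (T - g) ^ 2 + l * (T ^ 2 - g * T + g ^ 2) - g) / (2 * T - g) := by
  obtain ⟨d, rfl⟩ : ∃ d, g = 2 * T - d := ⟨2 * T - g, by ring⟩
  have e1 : 2 * T - (2 * T - d) = d := by ring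
  have hd : d ≠ 0 := by simpa using hne
  rw [e1]
  field_simp
  ring

theorem alg2 (T g l κ Z T' : ℝ) (hne : 2 * T - g ≠ 0) (hk : κ = 1 + T ^ 2 - g * T - g * l)
    (hZ : Z = T * (T - g) ^ 2 + l * (T ^ 2 - g * T + g ^ 2) - g)
    (hT : T' = T ^ 2 + l * T - 3 * Z / (2 * T - g)) :
    T' * (T - g) ^ 2 + T * (2 * (T - g) * (T' - (g ^ 2 + 1 - κ))) +
        ((-1 - l ^ 2) * (T ^ 2 - g * T + g ^ 2) +
          l * (2 * T * T' - ((g ^ 2 + 1 - κ) * T + g * T') + 2 * g * (g ^ 2 + 1 - κ))) -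
      (g ^ 2 + 1 - κ) =
    (5 * T - 3 * g - 2 * l - 3 * (3 * T - g) * (T - g) / (2 * T - g))
      * Z + 5 * κ * g * (T - g) := by
  obtain ⟨d, rfl⟩ : ∃ d, g = 2 * T - d := ⟨2 * T - g, by ring⟩
  have e1 : 2 * T - (2 * T - d) = d := by ring
  have hd : d ≠ 0 := by simpa using hne
  rw [e1] at hT ⊢
  subst hk hT hZ
  field_simp
  ring

/-! ### the other half -/

def lam (ν : ℝ) : ℝ := cos ν / sin ν
def AA (μ η ν : ℝ) : ℝ := kp μ η ν - 1 + g μ η ν * lam ν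
def Dl (μ η ν : ℝ) : ℝ := g μ η ν ^ 2 + 4 * AA μ η ν
def Tm (μ η ν : ℝ) : ℝ := (g μ η ν - √(Dl μ η ν)) / 2
def Z1 (μ η ν : ℝ) : ℝ := Tm μ η ν * (Tm μ η ν - g μ η ν) ^ 2
  + lam ν * (Tm μ η ν ^ 2 - g μ η ν * Tm μ η ν + g μ η ν ^ 2) - g μ η ν
def Em (μ η ν : ℝ) : ℝ := sin ν / Tm μ η ν - cos ν

theorem yy_eq {e ν : ℝ} (hν : sin ν ≠ 0) : yy e ν = T e ν * lam ν := by
  unfold yy T lam
  field_simp

theorem D_eq {e μ η ν : ℝ} (hν : sin ν ≠ 0) :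
    D e μ η ν = - T e ν * (T e ν ^ 2 - g μ η ν * T e ν - AA μ η ν) := by
  unfold D AA
  rw [yy_eq hν]
  ring

theorem hasDerivAt_lam {ν : ℝ} (hν : sin ν ≠ 0) : HasDerivAt lam (-1 - lam ν ^ 2) ν := by
  have h := (Real.hasDerivAt_cos ν).div (Real.hasDerivAt_sin ν) hν
  refine h.congr_deriv ?_
  unfold lam
  field_simp

def AA' (μ η ν : ℝ) : ℝ := 4 * g μ η ν * kp μ η ν
  + (g μ η ν ^ 2 + 1 - kp μ η ν) * lam ν + g μ η ν * (-1 - lam ν ^ 2)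

theorem hasDerivAt_AA {μ η : ℝ} (h : μ ^ 2 + η ^ 2 < 1) {ν : ℝ} (hν : sin ν ≠ 0) :
    HasDerivAt (AA μ η) (AA' μ η ν) ν := by
  have h1 : HasDerivAt (AA μ η) _ ν :=
    ((hasDerivAt_kp h ν).sub_const 1).add ((hasDerivAt_g h ν).mul (hasDerivAt_lam hν))
  refine h1.congr_deriv ?_
  unfold AA'
  ring

theorem hasDerivAt_Dl {μ η : ℝ} (h : μ ^ 2 + η ^ 2 < 1) {ν : ℝ} (hν : sin ν ≠ 0) :
    HasDerivAt (Dl μ η) (2 * g μ η ν * (g μ η ν ^ 2 + 1 - kp μ η ν) + 4 * AA' μ η ν) ν := by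
  have h1 : HasDerivAt (Dl μ η) _ ν :=
    ((hasDerivAt_g h ν).pow 2).add ((hasDerivAt_AA h hν).const_mul 4)
  refine h1.congr_deriv ?_
  push_cast
  ring

def Tm' (μ η ν : ℝ) : ℝ :=
  ((g μ η ν ^ 2 + 1 - kp μ η ν) * Tm μ η ν + AA' μ η ν) / (2 * Tm μ η ν - g μ η ν)

theorem two_Tm_sub (μ η ν : ℝ) : 2 * Tm μ η ν - g μ η ν = - √(Dl μ η ν) := by
  unfold Tm; ring

theorem Tm_quad {μ η ν : ℝ} (hΔ : 0 ≤ Dl μ η ν) :
    Tm μ η ν ^ 2 - g μ η ν * Tm μ η ν = AA μ η ν := by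
  have h1 := two_Tm_sub μ η ν
  have h2 : (2 * Tm μ η ν - g μ η ν) ^ 2 = Dl μ η ν := by
    rw [h1, neg_sq, Real.sq_sqrt hΔ]
  unfold Dl at h2
  linarith

theorem hasDerivAt_Tm {μ η : ℝ} (h : μ ^ 2 + η ^ 2 < 1) {ν : ℝ} (hν : sin ν ≠ 0)
    (hΔ : 0 < Dl μ η ν) : HasDerivAt (Tm μ η) (Tm' μ η ν) ν := by
  have h1 : HasDerivAt (Tm μ η) _ ν :=
    ((hasDerivAt_g h ν).sub ((hasDerivAt_Dl h hν).sqrt hΔ.ne')).div_const 2
  refine h1.congr_deriv ?_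
  have hs : 0 < √(Dl μ η ν) := Real.sqrt_pos.mpr hΔ
  unfold Tm'
  rw [two_Tm_sub]
  unfold Tm
  field_simp
  ring

/-- algebraic form of `Tm'` -/
theorem Tm'_eq {μ η ν : ℝ} (hΔ : 0 < Dl μ η ν) :
    Tm' μ η ν = Tm μ η ν ^ 2 + lam ν * Tm μ η ν
      - 3 * Z1 μ η ν / (2 * Tm μ η ν - g μ η ν) := by
  have hq := Tm_quad hΔ.le
  have hs : 0 < √(Dl μ η ν) := Real.sqrt_pos.mpr hΔ
  have hne : 2 * Tm μ η ν - g μ η ν ≠ 0 := by rw [two_Tm_sub]; linarith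
  have hk : kp μ η ν = 1 + Tm μ η ν ^ 2 - g μ η ν * Tm μ η ν - g μ η ν * lam ν := by
    unfold AA at hq; linarith
  unfold Tm' AA' Z1
  rw [hk]
  exact alg1 _ _ _ hne

def Z1' (μ η ν : ℝ) : ℝ :=
  (5 * Tm μ η ν - 3 * g μ η ν - 2 * lam ν
    - 3 * (3 * Tm μ η ν - g μ η ν) * (Tm μ η ν - g μ η ν) / (2 * Tm μ η ν - g μ η ν))
      * Z1 μ η ν + 5 * kp μ η ν * g μ η ν * (Tm μ η ν - g μ η ν)

theorem hasDerivAt_Z1 {μ η : ℝ} (h : μ ^ 2 + η ^ 2 < 1) {ν : ℝ} (hν : sin ν ≠ 0)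
    (hΔ : 0 < Dl μ η ν) : HasDerivAt (Z1 μ η) (Z1' μ η ν) ν := by
  have hT := hasDerivAt_Tm h hν hΔ
  have hg := hasDerivAt_g h ν
  have hl := hasDerivAt_lam hν
  have h1 : HasDerivAt (Z1 μ η) _ ν :=
    ((hT.mul ((hT.sub hg).pow 2)).add (hl.mul (((hT.pow 2).sub (hg.mul hT)).add (hg.pow 2)))).sub hg
  refine h1.congr_deriv ?_
  have hq := Tm_quad hΔ.le
  have hs : 0 < √(Dl μ η ν) := Real.sqrt_pos.mpr hΔ
  have hne : 2 * Tm μ η ν - g μ η ν ≠ 0 := by rw [two_Tm_sub]; linarith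
  have hk : kp μ η ν = 1 + Tm μ η ν ^ 2 - g μ η ν * Tm μ η ν - g μ η ν * lam ν := by
    unfold AA at hq; linarith
  have hZ : Z1 μ η ν = Tm μ η ν * (Tm μ η ν - g μ η ν) ^ 2
    + lam ν * (Tm μ η ν ^ 2 - g μ η ν * Tm μ η ν + g μ η ν ^ 2) - g μ η ν := rfl
  have key := alg2 _ _ _ _ _ _ hne hk hZ (Tm'_eq hΔ)
  simp only [Pi.add_apply, Pi.pow_apply, Pi.sub_apply, Pi.mul_apply]
  unfold Z1'
  rw [← key]
  push_cast
  ring

theorem hasDerivAt_Em {μ η : ℝ} (h : μ ^ 2 + η ^ 2 < 1) {ν : ℝ} (hν : sin ν ≠ 0)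
    (hΔ : 0 < Dl μ η ν) (hT0 : Tm μ η ν ≠ 0) :
    HasDerivAt (Em μ η)
      (3 * sin ν * Z1 μ η ν / (Tm μ η ν ^ 2 * (2 * Tm μ η ν - g μ η ν))) ν := by
  have hT := hasDerivAt_Tm h hν hΔ
  have h1 : HasDerivAt (Em μ η) _ ν :=
    ((Real.hasDerivAt_sin ν).div hT hT0).sub (Real.hasDerivAt_cos ν)
  refine h1.congr_deriv ?_
  have hs : 0 < √(Dl μ η ν) := Real.sqrt_pos.mpr hΔ
  have hne : 2 * Tm μ η ν - g μ η ν ≠ 0 := by rw [two_Tm_sub]; linarith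
  have hcos : cos ν = lam ν * sin ν := by unfold lam; field_simp
  rw [Tm'_eq hΔ, hcos]
  generalize 2 * Tm μ η ν - g μ η ν = d at hne ⊢
  field_simp
  ring

theorem g_mul_Z1 {μ η ν : ℝ} (hΔ : 0 ≤ Dl μ η ν) :
    g μ η ν * Z1 μ η ν = Tm μ η ν * (Tm μ η ν - g μ η ν) * (1 + Tm μ η ν ^ 2)
      - kp μ η ν * (Tm μ η ν ^ 2 - g μ η ν * Tm μ η ν + g μ η ν ^ 2) := by
  have hq := Tm_quad hΔ
  have hk : kp μ η ν = 1 + Tm μ η ν ^ 2 - g μ η ν * Tm μ η ν - g μ η ν * lam ν := by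
    unfold AA at hq; linarith
  unfold Z1
  rw [hk]
  ring

theorem AA_formula {μ η : ℝ} (h : μ ^ 2 + η ^ 2 < 1) {ν : ℝ} (hν : sin ν ≠ 0) :
    AA μ η ν * (sg μ η ν ^ 2 * sin ν * (μ ^ 2 + η ^ 2)) =
      (1 - μ ^ 2 - η ^ 2) * X μ η ν ^ 3 * η + Z μ η ν ^ 3 * μ := by
  have hs := sg_pos h ν
  have hXZ := X_sq_add_Z_sq μ η ν
  have h1 : AA μ η ν * (sg μ η ν ^ 2 * sin ν) =
      (1 - X μ η ν ^ 2 - Z μ η ν ^ 2 - (1 - X μ η ν ^ 2) ^ 2) * sin ν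
        + X μ η ν * Z μ η ν * (1 - X μ η ν ^ 2) * cos ν := by
    unfold AA kp g lam
    rw [show (1 - μ ^ 2 - η ^ 2 : ℝ) = 1 - X μ η ν ^ 2 - Z μ η ν ^ 2 by linarith]
    have hsdef : sg μ η ν = 1 - X μ η ν ^ 2 := rfl
    field_simp
    rw [hsdef]
    ring
  have h2 : sin ν * (μ ^ 2 + η ^ 2) = η * X μ η ν - μ * Z μ η ν := by
    unfold X Z; ring
  have h3 : cos ν * (μ ^ 2 + η ^ 2) = μ * X μ η ν + η * Z μ η ν := by
    unfold X Z; ring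
  have h4 : (1 - μ ^ 2 - η ^ 2 : ℝ) = 1 - X μ η ν ^ 2 - Z μ η ν ^ 2 := by linarith
  rw [h4]
  linear_combination (μ ^ 2 + η ^ 2) * h1
    + (1 - X μ η ν ^ 2 - Z μ η ν ^ 2 - (1 - X μ η ν ^ 2) ^ 2) * h2
    + X μ η ν * Z μ η ν * (1 - X μ η ν ^ 2) * h3

end

end Pool.Agent.Zk48.CE
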