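import Pool.Agent.Zk48.CE.ClaimAB

set_option autoImplicit false

namespace Pool.Agent.Zk48.CE

open Real Set Filter Topology

noncomputable section

variable {e μ η : ℝ}

theorem pos_left_of_mul {a b : ℝ} (h : 0 < a * b) (hb : 0 < b) : 0 < a :=
  (mul_pos_iff_of_pos_right hb).mp h

theorem kp_pos (hs : μ ^ 2 + η ^ 2 < 1) (ν : ℝ) : 0 < kp μ η ν :=
  div_pos (by linarith) (pow_pos (sg_pos hs ν) 2)

theorem AA_pos_of (hμ : 0 < μ) (hη : 0 < η) (hs : μ ^ 2 + η ^ 2 < 1) {ν : ℝ}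
    (hν : sin ν < 0) (hX : X μ η ν < 0) (hZ : Z μ η ν ≤ 0) : 0 < AA μ η ν := by
  have h := AA_formula hs hν.ne
  have hsg := sg_pos hs ν
  have h1 : (1 - μ ^ 2 - η ^ 2) * X μ η ν ^ 3 * η + Z μ η ν ^ 3 * μ < 0 := by
    have hX3 : X μ η ν ^ 3 < 0 := by
      have hne := hX.ne
      have : 0 < X μ η ν ^ 2 := by positivity
      nlinarith
    have hZ3 : Z μ η ν ^ 3 ≤ 0 := by
      have : 0 ≤ Z μ η ν ^ 2 := by positivity
      nlinarith
    have h2 : 0 < (1 - μ ^ 2 - η ^ 2) * η := mul_pos (by linarith) hη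
    nlinarith
  have h3 : sg μ η ν ^ 2 * sin ν * (μ ^ 2 + η ^ 2) < 0 := by
    have : 0 < sg μ η ν ^ 2 * (μ ^ 2 + η ^ 2) := by positivity
    nlinarith
  by_contra hcon
  have := mul_nonneg_of_nonpos_of_nonpos (not_lt.mp hcon) h3.le
  linarith

theorem D_pos_of_X_nonneg (h0 : 0 < e) (h1 : e < 1) (hμ : 0 < μ) (hη : 0 < η)
    (hs : μ ^ 2 + η ^ 2 < 1) {ν : ℝ} (hν : sin ν < 0) (hX : 0 ≤ X μ η ν) :
    0 < D e μ η ν := by
  have hT := T_neg h0 h1 hν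
  have hsg := sg_pos hs ν
  have hcos : 0 < cos ν := by
    unfold X at hX
    by_contra hcon
    nlinarith [mul_pos hη (neg_pos.mpr hν)]
  have hZ : 0 < Z μ η ν := by
    unfold Z
    nlinarith [mul_pos hη hcos, mul_pos hμ (neg_pos.mpr hν)]
  have hA : AA μ η ν < 0 := by
    have h := AA_formula hs hν.ne
    have h2 : 0 < (1 - μ ^ 2 - η ^ 2) * X μ η ν ^ 3 * η + Z μ η ν ^ 3 * μ := by
      have : 0 < 1 - μ ^ 2 - η ^ 2 := by linarith
      positivity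
    have h3 : sg μ η ν ^ 2 * sin ν * (μ ^ 2 + η ^ 2) < 0 := by
      have : 0 < sg μ η ν ^ 2 * (μ ^ 2 + η ^ 2) := by positivity
      nlinarith
    by_contra hcon
    have := mul_nonpos_of_nonneg_of_nonpos (not_lt.mp hcon) h3.le
    linarith
  have hg : 0 ≤ g μ η ν := div_nonneg (mul_nonneg hX hZ.le) hsg.le
  rw [D_eq hν.ne]
  have : 0 < T e ν ^ 2 - g μ η ν * T e ν - AA μ η ν := by nlinarith [sq_nonneg (T e ν)]
  nlinarith

theorem X_neg_of_le (hμ : 0 < μ) {a b : ℝ} (ha : -π < a) (hb : b < 0) (hab : a ≤ b)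
    (hXb : X μ η b < 0) : X μ η a < 0 := by
  have hsa : sin a < 0 := Real.sin_neg_of_neg_of_neg_pi_lt (by linarith) ha
  have hsb : sin b < 0 := Real.sin_neg_of_neg_of_neg_pi_lt hb (by linarith)
  have hs : 0 ≤ sin (b - a) := Real.sin_nonneg_of_nonneg_of_le_pi (by linarith) (by linarith)
  have key : X μ η a * sin b - X μ η b * sin a = μ * sin (b - a) := by
    unfold X; rw [Real.sin_sub]; ring
  by_contra hcon
  have h1 : X μ η a * sin b ≤ 0 := mul_nonpos_of_nonneg_of_nonpos (not_lt.mp hcon) hsb.le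
  have h2 : 0 < X μ η b * sin a := mul_pos_of_neg_of_neg hXb hsa
  have h3 : 0 ≤ μ * sin (b - a) := mul_nonneg hμ.le hs
  linarith

theorem Z_lt (hμ : 0 < μ) {a b : ℝ} (ha : -π < a) (hb : b < 0) (hab : a < b)
    (hXb : X μ η b < 0) : Z μ η a < Z μ η b := by
  have hmono : StrictMonoOn (Z μ η) (Icc a b) := by
    apply strictMonoOn_of_deriv_pos (convex_Icc a b)
    · exact fun x _ => (hasDerivAt_Z μ η x).continuousAt.continuousWithinAt
    · intro x hx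
      rw [interior_Icc] at hx
      rw [(hasDerivAt_Z μ η x).deriv]
      have := X_neg_of_le (η := η) hμ (a := x) (b := b) (by linarith [hx.1]) hb hx.2.le hXb
      linarith
  exact hmono ⟨le_refl a, hab.le⟩ ⟨hab.le, le_refl b⟩ hab

theorem Z_le (hμ : 0 < μ) {a b : ℝ} (ha : -π < a) (hb : b < 0) (hab : a ≤ b)
    (hXb : X μ η b < 0) : Z μ η a ≤ Z μ η b := by
  rcases hab.eq_or_lt with h | h
  · rw [h]
  · exact (Z_lt hμ ha hb h hXb).le

theorem X_le (hμ : 0 < μ) {a b : ℝ} (ha : -π < a) (hb : b < 0) (hab : a ≤ b)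
    (hXb : X μ η b < 0) (hZa : 0 ≤ Z μ η a) : X μ η a ≤ X μ η b := by
  have hmono : MonotoneOn (X μ η) (Icc a b) := by
    apply monotoneOn_of_deriv_nonneg (convex_Icc a b)
    · exact fun x _ => (hasDerivAt_X μ η x).continuousAt.continuousWithinAt
    · exact fun x _ => (hasDerivAt_X μ η x).differentiableAt.differentiableWithinAt
    · intro x hx
      rw [interior_Icc] at hx
      rw [(hasDerivAt_X μ η x).deriv]
      have hXx := X_neg_of_le (η := η) hμ (a := x) (b := b) (by linarith [hx.1]) hb hx.2.le hXb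
      exact le_trans hZa (Z_le hμ ha (by linarith [hx.2]) hx.1.le hXx)
  exact hmono ⟨le_refl a, hab⟩ ⟨hab, le_refl b⟩ hab

theorem Dl_formula (hs : μ ^ 2 + η ^ 2 < 1) {ν : ℝ} (hν : sin ν < 0) :
    Dl μ η ν * (sg μ η ν ^ 2 * (-sin ν) * (μ ^ 2 + η ^ 2)) =
      X μ η ν ^ 2 * Z μ η ν ^ 2 * (μ * Z μ η ν - η * X μ η ν)
        - 4 * ((1 - μ ^ 2 - η ^ 2) * X μ η ν ^ 3 * η + Z μ η ν ^ 3 * μ) := by
  have hsg := sg_pos hs ν
  have h2 : sin ν * (μ ^ 2 + η ^ 2) = η * X μ η ν - μ * Z μ η ν := by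
    unfold X Z; ring
  have h3 : g μ η ν ^ 2 * sg μ η ν ^ 2 = X μ η ν ^ 2 * Z μ η ν ^ 2 := by
    unfold g; field_simp
  unfold Dl
  linear_combination (-4) * AA_formula hs hν.ne - (sin ν * (μ ^ 2 + η ^ 2)) * h3
    - X μ η ν ^ 2 * Z μ η ν ^ 2 * h2

theorem P_mono {c2 u v u2 v2 m n : ℝ} (hc : 0 ≤ c2) (hm : 0 ≤ m) (hn : 0 ≤ n) (hu2 : 0 < u2)
    (hu : u2 ≤ u) (hv : 0 < v) (hv2 : v ≤ v2)
    (h : 0 < u2 ^ 2 * v2 ^ 2 * (m * v2 + n * u2) + 4 * (c2 * u2 ^ 3 * n - v2 ^ 3 * m)) :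
    0 < u ^ 2 * v ^ 2 * (m * v + n * u) + 4 * (c2 * u ^ 3 * n - v ^ 3 * m) := by
  have hv20 : 0 < v2 := lt_of_lt_of_le hv hv2
  have hu0 : 0 < u := lt_of_lt_of_le hu2 hu
  have a2 : u2 ^ 2 ≤ u ^ 2 := pow_le_pow_left₀ hu2.le hu 2
  have a3 : u2 ^ 3 ≤ u ^ 3 := pow_le_pow_left₀ hu2.le hu 3
  have b3 : v ^ 3 ≤ v2 ^ 3 := pow_le_pow_left₀ hv.le hv2 3
  -- termwise comparison after multiplying by cubes
  have t1 : u2 ^ 2 * v2 ^ 2 * (n * u2) * v ^ 3 ≤ u ^ 2 * v ^ 2 * (n * u) * v2 ^ 3 := by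
    have e1 : u2 ^ 2 * v2 ^ 2 * (n * u2) * v ^ 3 = n * (v2 ^ 2 * v ^ 2) * (u2 ^ 3 * v) := by ring
    have e2 : u ^ 2 * v ^ 2 * (n * u) * v2 ^ 3 = n * (v2 ^ 2 * v ^ 2) * (u ^ 3 * v2) := by ring
    rw [e1, e2]
    apply mul_le_mul_of_nonneg_left _ (by positivity)
    exact mul_le_mul a3 hv2 hv.le (by positivity)
  have t2 : u2 ^ 2 * v2 ^ 2 * (m * v2) * v ^ 3 ≤ u ^ 2 * v ^ 2 * (m * v) * v2 ^ 3 := by
    have e1 : u2 ^ 2 * v2 ^ 2 * (m * v2) * v ^ 3 = m * (v2 ^ 3 * v ^ 3) * u2 ^ 2 := by ring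
    have e2 : u ^ 2 * v ^ 2 * (m * v) * v2 ^ 3 = m * (v2 ^ 3 * v ^ 3) * u ^ 2 := by ring
    rw [e1, e2]
    exact mul_le_mul_of_nonneg_left a2 (by positivity)
  have t3 : c2 * u2 ^ 3 * n * v ^ 3 ≤ c2 * u ^ 3 * n * v2 ^ 3 := by
    have e1 : c2 * u2 ^ 3 * n * v ^ 3 = (c2 * n) * (u2 ^ 3 * v ^ 3) := by ring
    have e2 : c2 * u ^ 3 * n * v2 ^ 3 = (c2 * n) * (u ^ 3 * v2 ^ 3) := by ring
    rw [e1, e2]
    apply mul_le_mul_of_nonneg_left _ (by positivity)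
    exact mul_le_mul a3 b3 (by positivity) (by positivity)
  have hpos : 0 < (u2 ^ 2 * v2 ^ 2 * (m * v2 + n * u2) + 4 * (c2 * u2 ^ 3 * n - v2 ^ 3 * m))
      * v ^ 3 := mul_pos h (by positivity)
  have hfin : 0 < (u ^ 2 * v ^ 2 * (m * v + n * u) + 4 * (c2 * u ^ 3 * n - v ^ 3 * m))
      * v2 ^ 3 := by nlinarith
  exact pos_left_of_mul hfin (by positivity)

theorem Dl_pos_of_le (hμ : 0 < μ) (hη : 0 < η) (hs : μ ^ 2 + η ^ 2 < 1) {a b : ℝ}
    (ha : -π < a) (hb : b < 0) (hab : a ≤ b) (hXb : X μ η b < 0) (hD : 0 < Dl μ η b) :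
    0 < Dl μ η a := by
  have hsa : sin a < 0 := Real.sin_neg_of_neg_of_neg_pi_lt (by linarith) ha
  have hsb : sin b < 0 := Real.sin_neg_of_neg_of_neg_pi_lt hb (by linarith)
  have hXa := X_neg_of_le (η := η) hμ ha hb hab hXb
  rcases le_or_gt (Z μ η a) 0 with hZ | hZ
  · have := AA_pos_of hμ hη hs hsa hXa hZ
    unfold Dl
    nlinarith [sq_nonneg (g μ η a)]
  · have hZb : Z μ η a ≤ Z μ η b := Z_le hμ ha hb hab hXb
    have hXab : X μ η a ≤ X μ η b := X_le hμ ha hb hab hXb hZ.le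
    have hfa := Dl_formula hs hsa
    have hfb := Dl_formula hs hsb
    have hsga := sg_pos hs a
    have hsgb := sg_pos hs b
    have hpb : 0 < sg μ η b ^ 2 * (-sin b) * (μ ^ 2 + η ^ 2) := by
      have : 0 < -sin b := by linarith
      positivity
    have hpa : 0 < sg μ η a ^ 2 * (-sin a) * (μ ^ 2 + η ^ 2) := by
      have : 0 < -sin a := by linarith
      positivity
    have h1 := mul_pos hD hpb
    rw [hfb] at h1
    have key := P_mono (c2 := 1 - μ ^ 2 - η ^ 2) (u := -X μ η a) (v := Z μ η a)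
      (u2 := -X μ η b) (v2 := Z μ η b) (m := μ) (n := η) (by linarith) hμ.le hη.le
      (by linarith) (by linarith) hZ hZb (by nlinarith [h1])
    have h2 : 0 < Dl μ η a * (sg μ η a ^ 2 * (-sin a) * (μ ^ 2 + η ^ 2)) := by
      rw [hfa]; nlinarith [key]
    exact pos_left_of_mul h2 hpa

theorem Tm_neg (hμ : 0 < μ) (hη : 0 < η) (hs : μ ^ 2 + η ^ 2 < 1) {ν : ℝ}
    (hν : sin ν < 0) (hX : X μ η ν < 0) (hΔ : 0 < Dl μ η ν) : Tm μ η ν < 0 := by
  have hsg := sg_pos hs ν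
  have hsq : 0 < √(Dl μ η ν) := Real.sqrt_pos.mpr hΔ
  unfold Tm
  rcases le_or_gt (Z μ η ν) 0 with hZ | hZ
  · have hA := AA_pos_of hμ hη hs hν hX hZ
    have : g μ η ν < √(Dl μ η ν) := by
      apply lt_of_le_of_lt (le_abs_self _)
      apply Real.lt_sqrt_of_sq_lt
      rw [sq_abs]
      unfold Dl; linarith
    linarith
  · have hg : g μ η ν < 0 := div_neg_of_neg_of_pos (mul_neg_of_neg_of_pos hX hZ) hsg
    linarith

theorem Z1'_neg (hs : μ ^ 2 + η ^ 2 < 1) {ν : ℝ} (hT : Tm μ η ν < 0) (hX : X μ η ν < 0)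
    (hZ : Z μ η ν < 0) (h1 : Z1 μ η ν = 0) : Z1' μ η ν < 0 := by
  have hsg := sg_pos hs ν
  have hk := kp_pos hs ν
  have hg : 0 < g μ η ν := div_pos (mul_pos_of_neg_of_neg hX hZ) hsg
  unfold Z1'
  rw [h1, mul_zero, zero_add]
  have : 0 < 5 * kp μ η ν * g μ η ν := by positivity
  nlinarith

theorem Z1'_pos (hs : μ ^ 2 + η ^ 2 < 1) {ν : ℝ} (hT : Tm μ η ν < 0) (hX : X μ η ν < 0)
    (hZ : 0 < Z μ η ν) (hΔ : 0 < Dl μ η ν) (h1 : Z1 μ η ν = 0) : 0 < Z1' μ η ν := by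
  have hsg := sg_pos hs ν
  have hk := kp_pos hs ν
  have hg : g μ η ν < 0 := div_neg_of_neg_of_pos (mul_neg_of_neg_of_pos hX hZ) hsg
  have h2 := g_mul_Z1 hΔ.le
  rw [h1, mul_zero] at h2
  have hQ : 0 < Tm μ η ν ^ 2 - g μ η ν * Tm μ η ν + g μ η ν ^ 2 := by
    nlinarith [sq_nonneg (Tm μ η ν - g μ η ν), mul_pos_of_neg_of_neg hg hT]
  have h3 : 0 < Tm μ η ν * (Tm μ η ν - g μ η ν) * (1 + Tm μ η ν ^ 2) := by
    have := mul_pos hk hQ
    linarith
  have h4 : 0 < Tm μ η ν * (Tm μ η ν - g μ η ν) :=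
    pos_left_of_mul h3 (by positivity)
  have h5 : Tm μ η ν - g μ η ν < 0 := by
    by_contra hcon
    have := mul_nonpos_of_nonpos_of_nonneg hT.le (not_lt.mp hcon)
    linarith
  unfold Z1'
  rw [h1, mul_zero, zero_add]
  have h6 : 0 < g μ η ν * (Tm μ η ν - g μ η ν) := mul_pos_of_neg_of_neg hg h5
  have : 0 < 5 * kp μ η ν * (g μ η ν * (Tm μ η ν - g μ η ν)) := by positivity
  linarith

/-- facts at a zero of `D` with `D' ≤ 0` -/
theorem at_down_zero (h0 : 0 < e) (h1 : e < 1) (hμ : 0 < μ) (hη : 0 < η)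
    (hs : μ ^ 2 + η ^ 2 < 1) {ν : ℝ} (hν : sin ν < 0) (hD : D e μ η ν = 0)
    (hD' : D' e μ η ν ≤ 0) :
    X μ η ν < 0 ∧ 0 < Dl μ η ν ∧ Z1 μ η ν ≤ 0 ∧ Em μ η ν = 1 / e := by
  have hT := T_neg h0 h1 hν
  have hw := w_pos h0 h1 ν
  have hX : X μ η ν < 0 := by
    by_contra hcon
    have := D_pos_of_X_nonneg h0 h1 hμ hη hs hν (not_lt.mp hcon)
    linarith
  have hk := kp_pos hs ν
  have hquad : T e ν ^ 2 - g μ η ν * T e ν = AA μ η ν := by
    rw [D_eq hν.ne] at hD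
    have := (mul_eq_zero.mp hD).resolve_left (neg_ne_zero.mpr hT.ne)
    linarith
  have hD'2 : D' e μ η ν = -3 * T e ν * (T e ν * (T e ν - g μ η ν) ^ 2
      + lam ν * (T e ν ^ 2 - g μ η ν * T e ν + g μ η ν ^ 2) - g μ η ν) := by
    unfold D'
    rw [hD, yy_eq hν.ne]
    ring
  have hZle : T e ν * (T e ν - g μ η ν) ^ 2
      + lam ν * (T e ν ^ 2 - g μ η ν * T e ν + g μ η ν ^ 2) - g μ η ν ≤ 0 := by
    by_contra hcon
    have := mul_pos (by linarith : 0 < -3 * T e ν) (not_le.mp hcon)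
    rw [hD'2] at hD'
    linarith
  have h2T : 2 * T e ν < g μ η ν := by
    rcases le_or_gt 0 (g μ η ν) with hg | hg
    · linarith
    · have hid : g μ η ν * (T e ν * (T e ν - g μ η ν) ^ 2
          + lam ν * (T e ν ^ 2 - g μ η ν * T e ν + g μ η ν ^ 2) - g μ η ν) =
          T e ν * (T e ν - g μ η ν) * (1 + T e ν ^ 2)
            - kp μ η ν * (T e ν ^ 2 - g μ η ν * T e ν + g μ η ν ^ 2) := by
        have hk2 : kp μ η ν = 1 + T e ν ^ 2 - g μ η ν * T e ν - g μ η ν * lam ν := by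
          unfold AA at hquad; linarith
        rw [hk2]; ring
      have h3 := mul_nonneg_of_nonpos_of_nonpos hg.le hZle
      rw [hid] at h3
      have hQ : 0 < T e ν ^ 2 - g μ η ν * T e ν + g μ η ν ^ 2 := by
        nlinarith [sq_nonneg (T e ν - g μ η ν), mul_pos_of_neg_of_neg hg hT]
      have h4 : 0 < T e ν * (T e ν - g μ η ν) * (1 + T e ν ^ 2) := by
        have := mul_pos hk hQ
        linarith
      have h5 : 0 < T e ν * (T e ν - g μ η ν) :=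
        pos_left_of_mul h4 (by positivity)
      have h6 : T e ν - g μ η ν < 0 := by
        by_contra hcon
        have := mul_nonpos_of_nonpos_of_nonneg hT.le (not_lt.mp hcon)
        linarith
      linarith
  have hΔeq : Dl μ η ν = (g μ η ν - 2 * T e ν) ^ 2 := by
    unfold Dl; rw [← hquad]; ring
  have hsqrt : √(Dl μ η ν) = g μ η ν - 2 * T e ν := by
    rw [hΔeq, Real.sqrt_sq (by linarith)]
  have hTm : Tm μ η ν = T e ν := by
    unfold Tm; rw [hsqrt]; ring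
  refine ⟨hX, ?_, ?_, ?_⟩
  · rw [hΔeq]
    have : 0 < g μ η ν - 2 * T e ν := by linarith
    positivity
  · unfold Z1; rw [hTm]; exact hZle
  · unfold Em; rw [hTm]
    unfold T
    have : sin ν ≠ 0 := hν.ne
    field_simp
    unfold w
    ring

theorem down_zeros_le_one (h0 : 0 < e) (h1 : e < 1) (hμ : 0 < μ) (hη : 0 < η)
    (hs : μ ^ 2 + η ^ 2 < 1) {a b : ℝ} (ha : -π < a) (hb : b < 0) (hab : a < b)
    (hDa : D e μ η a = 0) (hDa' : D' e μ η a ≤ 0) (hDb : D e μ η b = 0)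
    (hDb' : D' e μ η b ≤ 0) : False := by
  have hsin : ∀ x ∈ Icc a b, sin x < 0 := fun x hx =>
    Real.sin_neg_of_neg_of_neg_pi_lt (by linarith [hx.2]) (by linarith [hx.1])
  obtain ⟨hXa, hΔa, hZa, hEa⟩ := at_down_zero h0 h1 hμ hη hs (hsin a ⟨le_refl _, hab.le⟩) hDa hDa'
  obtain ⟨hXb, hΔb, hZb, hEb⟩ := at_down_zero h0 h1 hμ hη hs (hsin b ⟨hab.le, le_refl _⟩) hDb hDb'
  have hX : ∀ x ∈ Icc a b, X μ η x < 0 := fun x hx =>
    X_neg_of_le hμ (by linarith [hx.1]) hb hx.2 hXb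
  have hΔ : ∀ x ∈ Icc a b, 0 < Dl μ η x := fun x hx =>
    Dl_pos_of_le hμ hη hs (by linarith [hx.1]) hb hx.2 hXb hΔb
  have hT : ∀ x ∈ Icc a b, Tm μ η x < 0 := fun x hx =>
    Tm_neg hμ hη hs (hsin x hx) (hX x hx) (hΔ x hx)
  have hdZ : ∀ x ∈ Icc a b, HasDerivAt (Z1 μ η) (Z1' μ η x) x := fun x hx =>
    hasDerivAt_Z1 hs (hsin x hx).ne (hΔ x hx)
  -- Z1 ≤ 0 on the whole interval
  have hZle : ∀ x ∈ Icc a b, Z1 μ η x ≤ 0 := by
    intro x hx
    by_contra hcon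
    have hpos : 0 < Z1 μ η x := not_le.mp hcon
    rcases le_or_gt (Z μ η x) 0 with hz | hz
    · obtain ⟨z, hz1, hz2, hz3⟩ := exists_cross_up (f := Z1 μ η) (f' := Z1' μ η) hx.1
        (fun t ht => hdZ t ⟨ht.1, le_trans ht.2 hx.2⟩) hZa hpos
      have hzI : z ∈ Icc a b := ⟨hz1.1, le_trans hz1.2.le hx.2⟩
      have hZz : Z μ η z < 0 := lt_of_lt_of_le
        (Z_lt hμ (by linarith [hz1.1]) (by linarith [hx.2]) hz1.2 (hX x hx)) hz
      exact absurd (Z1'_neg hs (hT z hzI) (hX z hzI) hZz hz2) (not_lt.mpr hz3)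
    · obtain ⟨z, hz1, hz2, hz3⟩ := exists_cross_down (f := Z1 μ η) (f' := Z1' μ η) hx.2
        (fun t ht => hdZ t ⟨le_trans hx.1 ht.1, ht.2⟩) hpos hZb
      have hzI : z ∈ Icc a b := ⟨le_trans hx.1 hz1.1.le, hz1.2⟩
      have hZz : 0 < Z μ η z := lt_trans hz
        (Z_lt hμ (by linarith [hx.1]) (by linarith [hz1.2]) hz1.1 (hX z hzI))
      exact absurd (Z1'_pos hs (hT z hzI) (hX z hzI) hZz (hΔ z hzI) hz2) (not_lt.mpr hz3)
  -- derivative of Em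
  have hdE : ∀ x ∈ Icc a b, HasDerivAt (Em μ η)
      (3 * sin x * Z1 μ η x / (Tm μ η x ^ 2 * (2 * Tm μ η x - g μ η x))) x := fun x hx =>
    hasDerivAt_Em hs (hsin x hx).ne (hΔ x hx) (hT x hx).ne
  have hden : ∀ x ∈ Icc a b, Tm μ η x ^ 2 * (2 * Tm μ η x - g μ η x) < 0 := by
    intro x hx
    have h2 : 0 < √(Dl μ η x) := Real.sqrt_pos.mpr (hΔ x hx)
    have h3 : 0 < Tm μ η x ^ 2 := by have := (hT x hx).ne; positivity
    rw [two_Tm_sub]
    nlinarith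
  have hanti : AntitoneOn (Em μ η) (Icc a b) := by
    apply antitoneOn_of_deriv_nonpos (convex_Icc a b)
    · exact fun x hx => (hdE x hx).continuousAt.continuousWithinAt
    · intro x hx
      rw [interior_Icc] at hx
      exact (hdE x ⟨hx.1.le, hx.2.le⟩).differentiableAt.differentiableWithinAt
    · intro x hx
      rw [interior_Icc] at hx
      have hx' : x ∈ Icc a b := ⟨hx.1.le, hx.2.le⟩
      rw [(hdE x hx').deriv]
      apply div_nonpos_of_nonneg_of_nonpos _ (hden x hx').le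
      have h2 := hsin x hx'
      have h3 := hZle x hx'
      have := mul_nonneg_of_nonpos_of_nonpos h2.le h3
      linarith
  have hconst : ∀ x ∈ Icc a b, Em μ η x = 1 / e := by
    intro x hx
    apply le_antisymm
    · rw [← hEa]; exact hanti ⟨le_refl _, hab.le⟩ hx hx.1
    · rw [← hEb]; exact hanti hx ⟨hab.le, le_refl _⟩ hx.2
  have hZ0 : ∀ x ∈ Ioo a b, Z1 μ η x = 0 := by
    intro x hx
    have hx' : x ∈ Icc a b := ⟨hx.1.le, hx.2.le⟩
    have hev : Em μ η =ᶠ[𝓝 x] fun _ => 1 / e := by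
      filter_upwards [Ioo_mem_nhds hx.1 hx.2] with t ht
      exact hconst t ⟨ht.1.le, ht.2.le⟩
    have hd0 : HasDerivAt (Em μ η) 0 x := (hasDerivAt_const x (1 / e)).congr_of_eventuallyEq hev
    have heq := (hdE x hx').unique hd0
    rw [div_eq_zero_iff] at heq
    rcases heq with h | h
    · rcases mul_eq_zero.mp h with h | h
      · exact absurd h (by have := hsin x hx'; intro hh; linarith)
      · exact h
    · exact absurd h (hden x hx').ne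
  have hZ0' : ∀ x ∈ Ioo a b, Z1' μ η x = 0 := by
    intro x hx
    have hev : Z1 μ η =ᶠ[𝓝 x] fun _ => (0 : ℝ) := by
      filter_upwards [Ioo_mem_nhds hx.1 hx.2] with t ht
      exact hZ0 t ht
    have hd0 : HasDerivAt (Z1 μ η) 0 x := (hasDerivAt_const x (0 : ℝ)).congr_of_eventuallyEq hev
    exact (hdZ x ⟨hx.1.le, hx.2.le⟩).unique hd0
  -- choose two points
  have hc1 : (a + b) / 2 ∈ Ioo a b := ⟨by linarith, by linarith⟩
  have hc2 : (a + 3 * b) / 4 ∈ Ioo a b := ⟨by linarith, by linarith⟩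
  have hlt : (a + b) / 2 < (a + 3 * b) / 4 := by linarith
  have hZlt : Z μ η ((a + b) / 2) < Z μ η ((a + 3 * b) / 4) :=
    Z_lt hμ (by linarith) (by linarith) hlt (hX _ ⟨hc2.1.le, hc2.2.le⟩)
  have contra : ∀ x ∈ Ioo a b, Z μ η x ≠ 0 → False := by
    intro x hx hzx
    have hx' : x ∈ Icc a b := ⟨hx.1.le, hx.2.le⟩
    rcases lt_or_gt_of_ne hzx with h | h
    · have := Z1'_neg hs (hT x hx') (hX x hx') h (hZ0 x hx)
      rw [hZ0' x hx] at this
      exact lt_irrefl _ this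
    · have := Z1'_pos hs (hT x hx') (hX x hx') h (hΔ x hx') (hZ0 x hx)
      rw [hZ0' x hx] at this
      exact lt_irrefl _ this
  by_cases hz : Z μ η ((a + b) / 2) = 0
  · exact contra _ hc2 (by rw [hz] at hZlt; exact hZlt.ne')
  · exact contra _ hc1 hz

/-- On the half `sin ν < 0` there are at most three inflections (`0 < μ, η`). -/
theorem lower_zeros_le_three (h0 : 0 < e) (h1 : e < 1) (hμ : 0 < μ) (hη : 0 < η)
    (hs : μ ^ 2 + η ^ 2 < 1) :
    {x ∈ Ioo (-π) 0 | D e μ η x = 0}.encard ≤ (3 : ℕ) := by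
  apply zeros_le_three (f' := D' e μ η) ordConnected_Ioo
  · exact fun x _ => hasDerivAt_D hs (w_pos h0 h1 x).ne'
  · have := encard_le_of_sep
      (S := {x ∈ Ioo (-π) 0 | D e μ η x = 0 ∧ D' e μ η x ≤ 0}) (F := ∅) (n := 0) (by simp) ?_
    · simpa using this
    · intro x hx y hy hxy
      exact (down_zeros_le_one h0 h1 hμ hη hs hx.1.1 hy.1.2 hxy hx.2.1 hx.2.2 hy.2.1
        hy.2.2).elim

/-- On the half `sin ν > 0` there is at most one inflection (`0 ≤ μ η`). -/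
theorem upper_zeros_le_one (h0 : 0 < e) (h1 : e < 1) (hK : 0 ≤ μ * η)
    (hs : μ ^ 2 + η ^ 2 < 1) :
    {x ∈ Ioo 0 π | D e μ η x = 0}.encard ≤ (1 : ℕ) := by
  apply zeros_le_one (f' := D' e μ η) ordConnected_Ioo
  · exact fun x _ => hasDerivAt_D hs (w_pos h0 h1 x).ne'
  · intro x hx hx0
    have hsin : 0 < sin x := Real.sin_pos_of_pos_of_lt_pi hx.1 hx.2
    exact D'_neg h0 h1 hs hsin.ne' (Or.inl ⟨hsin, hK⟩) hx0

theorem lower_zeros_le_one (h0 : 0 < e) (h1 : e < 1) (hK : μ * η = 0)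
    (hs : μ ^ 2 + η ^ 2 < 1) :
    {x ∈ Ioo (-π) 0 | D e μ η x = 0}.encard ≤ (1 : ℕ) := by
  apply zeros_le_one (f' := D' e μ η) ordConnected_Ioo
  · exact fun x _ => hasDerivAt_D hs (w_pos h0 h1 x).ne'
  · intro x hx hx0
    have hsin : sin x < 0 := Real.sin_neg_of_neg_of_neg_pi_lt hx.2 hx.1
    exact D'_neg h0 h1 hs hsin.ne (Or.inr hK) hx0

end

end Pool.Agent.Zk48.CE
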