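import Mathlib

set_option autoImplicit false

namespace Pool.Agent.Zk48.CE

open Set Filter Topology

/-- If any two points of `S` are separated by a point of `F`, then `S` has at most one
point more than `F`. -/
theorem encard_le_of_sep {S F : Set ℝ} {n : ℕ} (hF : F.encard ≤ n)
    (h : ∀ x ∈ S, ∀ y ∈ S, x < y → ∃ f ∈ F, x < f ∧ f < y) : S.encard ≤ (n + 1 : ℕ) := by
  have hfin : F.Finite := by
    rw [← Set.encard_lt_top_iff]
    exact lt_of_le_of_lt hF (by exact_mod_cast ENat.natCast_lt_top n)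
  have hn : F.ncard ≤ n := by
    have := hfin.cast_ncard_eq
    rw [← this] at hF
    exact_mod_cast hF
  let φ : ℝ → ℕ := fun x => (F ∩ Iio x).ncard
  have hmono : ∀ x ∈ S, ∀ y ∈ S, x < y → φ x < φ y := by
    intro x hx y hy hxy
    obtain ⟨f, hf, h1, h2⟩ := h x hx y hy hxy
    apply Set.ncard_lt_ncard _ (hfin.inter_of_left _)
    refine ⟨fun z hz => ⟨hz.1, lt_trans hz.2 hxy⟩, fun hsub => ?_⟩
    have := hsub ⟨hf, h2⟩
    exact absurd this.2 (not_lt.mpr h1.le)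
  have hinj : InjOn φ S := by
    intro x hx y hy hxy
    rcases lt_trichotomy x y with h1 | h1 | h1
    · exact absurd hxy (hmono x hx y hy h1).ne
    · exact h1
    · exact absurd hxy (hmono y hy x hx h1).ne'
  have hmap : φ '' S ⊆ Iic n := by
    rintro _ ⟨x, hx, rfl⟩
    exact le_trans (Set.ncard_le_ncard inter_subset_left hfin) hn
  calc S.encard = (φ '' S).encard := (hinj.encard_image).symm
    _ ≤ (Iic n).encard := Set.encard_le_encard hmap
    _ = (n + 1 : ℕ) := by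
        rw [← Finset.coe_Iic, Set.encard_coe_eq_coe_finsetCard]
        simp

theorem neg_right_of_deriv_neg {f : ℝ → ℝ} {x d y : ℝ} (hf : HasDerivAt f d x) (h0 : f x = 0)
    (hd : d < 0) (hxy : x < y) : ∃ z, x < z ∧ z < y ∧ f z < 0 := by
  have h1 := hasDerivAt_iff_tendsto_slope.mp hf
  have h2 : ∀ᶠ z in 𝓝[≠] x, slope f x z < 0 := h1.eventually (gt_mem_nhds hd)
  have h3 : ∀ᶠ z in 𝓝[>] x, slope f x z < 0 :=
    h2.filter_mono (nhdsWithin_mono x (fun z hz => ne_of_gt hz))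
  have h4 : ∀ᶠ z in 𝓝[>] x, z ∈ Ioo x y := Ioo_mem_nhdsGT hxy
  obtain ⟨z, hz1, hz2⟩ := (h3.and h4).exists
  refine ⟨z, hz2.1, hz2.2, ?_⟩
  rw [slope_def_field, h0, sub_zero, div_neg_iff] at hz1
  rcases hz1 with h | h
  · exact absurd h.2 (not_lt.mpr (by linarith [hz2.1]))
  · exact h.1

theorem pos_left_of_deriv_neg {f : ℝ → ℝ} {x d y : ℝ} (hf : HasDerivAt f d x) (h0 : f x = 0)
    (hd : d < 0) (hxy : y < x) : ∃ z, y < z ∧ z < x ∧ 0 < f z := by
  have h1 := hasDerivAt_iff_tendsto_slope.mp hf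
  have h2 : ∀ᶠ z in 𝓝[≠] x, slope f x z < 0 := h1.eventually (gt_mem_nhds hd)
  have h3 : ∀ᶠ z in 𝓝[<] x, slope f x z < 0 :=
    h2.filter_mono (nhdsWithin_mono x (fun z hz => ne_of_lt hz))
  have h4 : ∀ᶠ z in 𝓝[<] x, z ∈ Ioo y x := Ioo_mem_nhdsLT hxy
  obtain ⟨z, hz1, hz2⟩ := (h3.and h4).exists
  refine ⟨z, hz2.1, hz2.2, ?_⟩
  rw [slope_def_field, h0, sub_zero, div_neg_iff] at hz1
  rcases hz1 with h | h
  · exact h.1
  · exact absurd h.2 (not_lt.mpr (by linarith [hz2.2]))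

/-- A function going from `≤ 0` to `> 0` has a zero with nonnegative derivative. -/
theorem exists_cross_up {f f' : ℝ → ℝ} {a b : ℝ} (hab : a ≤ b)
    (hd : ∀ x ∈ Icc a b, HasDerivAt f (f' x) x) (ha : f a ≤ 0) (hb : 0 < f b) :
    ∃ z ∈ Ico a b, f z = 0 ∧ 0 ≤ f' z := by
  have hc : ContinuousOn f (Icc a b) := fun x hx => (hd x hx).continuousAt.continuousWithinAt
  have hK : IsCompact (Icc a b ∩ f ⁻¹' Iic 0) :=
    isCompact_Icc.of_isClosed_subset
      (hc.preimage_isClosed_of_isClosed isClosed_Icc isClosed_Iic) inter_subset_left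
  obtain ⟨z, hz⟩ := hK.exists_isGreatest ⟨a, ⟨le_refl a, hab⟩, ha⟩
  have hzI : z ∈ Icc a b := hz.1.1
  have hz0 : f z ≤ 0 := hz.1.2
  have hzb : z < b := by
    rcases lt_or_eq_of_le hzI.2 with h | h
    · exact h
    · rw [h] at hz0; exact absurd hz0 (not_le.mpr hb)
  have hpos : ∀ y ∈ Ioc z b, 0 < f y := by
    intro y hy
    by_contra hcon
    have : y ≤ z := hz.2 ⟨⟨le_trans hzI.1 hy.1.le, hy.2⟩, not_lt.mp hcon⟩
    exact absurd this (not_le.mpr hy.1)
  have hev : ∀ᶠ y in 𝓝[>] z, y ∈ Ioc z b := Ioc_mem_nhdsGT hzb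
  have hfz : f z = 0 := by
    apply le_antisymm hz0
    have ht : Tendsto f (𝓝[>] z) (𝓝 (f z)) :=
      (hd z hzI).continuousAt.tendsto.mono_left nhdsWithin_le_nhds
    exact ge_of_tendsto ht (hev.mono fun y hy => (hpos y hy).le)
  refine ⟨z, ⟨hzI.1, hzb⟩, hfz, ?_⟩
  have h1 := hasDerivAt_iff_tendsto_slope.mp (hd z hzI)
  have h2 : Tendsto (slope f z) (𝓝[>] z) (𝓝 (f' z)) :=
    h1.mono_left (nhdsWithin_mono z (fun y hy => ne_of_gt hy))
  refine ge_of_tendsto h2 (hev.mono fun y hy => ?_)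
  rw [slope_def_field, hfz, sub_zero]
  exact div_nonneg (hpos y hy).le (by linarith [hy.1])

/-- A function going from `> 0` to `≤ 0` has a zero with nonpositive derivative. -/
theorem exists_cross_down {f f' : ℝ → ℝ} {a b : ℝ} (hab : a ≤ b)
    (hd : ∀ x ∈ Icc a b, HasDerivAt f (f' x) x) (ha : 0 < f a) (hb : f b ≤ 0) :
    ∃ z ∈ Ioc a b, f z = 0 ∧ f' z ≤ 0 := by
  have key := exists_cross_up (f := fun x => f (a + b - x)) (f' := fun x => - f' (a + b - x))
    (a := a) (b := b) hab ?_ (by simpa using hb) (by simpa using ha)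
  · obtain ⟨z, hz, h0, h1⟩ := key
    refine ⟨a + b - z, ⟨by linarith [hz.2], by linarith [hz.1]⟩, h0, by linarith⟩
  · intro x hx
    have h1 := hd (a + b - x) ⟨by linarith [hx.2], by linarith [hx.1]⟩
    have h2 : HasDerivAt (fun x => a + b - x) (-1) x := by
      simpa using (hasDerivAt_id x).const_sub (a + b)
    have h3 := HasDerivAt.comp x h1 h2
    simpa [Function.comp_def] using h3

theorem between_neg {f f' : ℝ → ℝ} {x y : ℝ} (hxy : x < y)
    (hd : ∀ t ∈ Icc x y, HasDerivAt f (f' t) t) (hx : f x = 0) (hy : f y = 0)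
    (hx' : f' x < 0) (hy' : f' y < 0) : ∃ z, x < z ∧ z < y ∧ f z = 0 ∧ 0 ≤ f' z := by
  obtain ⟨p, hp1, hp2, hp3⟩ := neg_right_of_deriv_neg (hd x ⟨le_refl _, hxy.le⟩) hx hx' hxy
  obtain ⟨q, hq1, hq2, hq3⟩ := pos_left_of_deriv_neg (hd y ⟨hxy.le, le_refl _⟩) hy hy' hp2
  obtain ⟨z, hz, h0, h1⟩ := exists_cross_up (f := f) (f' := f') hq1.le
    (fun t ht => hd t ⟨by linarith [ht.1], by linarith [ht.2]⟩) hp3.le hq3
  exact ⟨z, by linarith [hz.1], by linarith [hz.2], h0, h1⟩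

theorem between_pos {f f' : ℝ → ℝ} {x y : ℝ} (hxy : x < y)
    (hd : ∀ t ∈ Icc x y, HasDerivAt f (f' t) t) (hx : f x = 0) (hy : f y = 0)
    (hx' : 0 < f' x) (hy' : 0 < f' y) : ∃ z, x < z ∧ z < y ∧ f z = 0 ∧ f' z ≤ 0 := by
  obtain ⟨z, h1, h2, h3, h4⟩ := between_neg (f := fun t => - f t) (f' := fun t => - f' t) hxy
    (fun t ht => (hd t ht).neg) (by simp [hx]) (by simp [hy]) (by simpa using hx')
    (by simpa using hy')
  exact ⟨z, h1, h2, by simpa using h3, by simpa using h4⟩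

/-- If the derivative is negative at every zero there is at most one zero. -/
theorem zeros_le_one {f f' : ℝ → ℝ} {I : Set ℝ} (hI : I.OrdConnected)
    (hd : ∀ x ∈ I, HasDerivAt f (f' x) x) (hneg : ∀ x ∈ I, f x = 0 → f' x < 0) :
    {x ∈ I | f x = 0}.encard ≤ (1 : ℕ) := by
  have := encard_le_of_sep (S := {x ∈ I | f x = 0}) (F := ∅) (n := 0) (by simp) ?_
  · simpa using this
  · intro x hx y hy hxy
    obtain ⟨z, h1, h2, h3, h4⟩ := between_neg hxy (fun t ht => hd t (hI.out hx.1 hy.1 ht))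
      hx.2 hy.2 (hneg x hx.1 hx.2) (hneg y hy.1 hy.2)
    exact absurd (hneg z (hI.out hx.1 hy.1 ⟨h1.le, h2.le⟩) h3) (not_lt.mpr h4)

/-- If at most one zero has nonpositive derivative there are at most three zeros. -/
theorem zeros_le_three {f f' : ℝ → ℝ} {I : Set ℝ} (hI : I.OrdConnected)
    (hd : ∀ x ∈ I, HasDerivAt f (f' x) x)
    (hone : {x ∈ I | f x = 0 ∧ f' x ≤ 0}.encard ≤ (1 : ℕ)) :
    {x ∈ I | f x = 0}.encard ≤ (3 : ℕ) := by
  have h1 := encard_le_of_sep (S := {x ∈ I | f x = 0 ∧ 0 < f' x})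
    (F := {x ∈ I | f x = 0 ∧ f' x ≤ 0}) (n := 1) hone ?_
  · have hsub : {x ∈ I | f x = 0} ⊆ {x ∈ I | f x = 0 ∧ 0 < f' x} ∪
        {x ∈ I | f x = 0 ∧ f' x ≤ 0} := by
      rintro x ⟨hx, h0⟩
      rcases lt_or_ge 0 (f' x) with h | h
      · exact Or.inl ⟨hx, h0, h⟩
      · exact Or.inr ⟨hx, h0, h⟩
    calc {x ∈ I | f x = 0}.encard ≤ _ := Set.encard_le_encard hsub
      _ ≤ _ := Set.encard_union_le _ _
      _ ≤ ((1 + 1 : ℕ) : ℕ∞) + ((1 : ℕ) : ℕ∞) := add_le_add h1 hone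
      _ = (3 : ℕ) := by norm_num
  · intro x hx y hy hxy
    obtain ⟨z, h1, h2, h3, h4⟩ := between_pos hxy (fun t ht => hd t (hI.out hx.1 hy.1 ht))
      hx.2.1 hy.2.1 hx.2.2 hy.2.2
    exact ⟨z, ⟨hI.out hx.1 hy.1 ⟨h1.le, h2.le⟩, h3, h4⟩, h1, h2⟩

/-- Rolle count: points where `|Y| = k` are separated by zeros of `Y` or of `Y'`. -/
theorem level_le {Y Y' : ℝ → ℝ} {I : Set ℝ} (hI : I.OrdConnected)
    (hd : ∀ x ∈ I, HasDerivAt Y (Y' x) x) {k : ℝ} (hk : 0 < k) {m n : ℕ}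
    (h1 : {x ∈ I | Y' x = 0}.encard ≤ m) (h2 : {x ∈ I | Y x = 0}.encard ≤ n) :
    {x ∈ I | |Y x| = k}.encard ≤ (m + n + 1 : ℕ) := by
  refine encard_le_of_sep (F := {x ∈ I | Y' x = 0} ∪ {x ∈ I | Y x = 0}) (n := m + n) ?_ ?_
  · calc _ ≤ _ := Set.encard_union_le _ _
      _ ≤ (m : ℕ∞) + n := add_le_add h1 h2
      _ = ((m + n : ℕ) : ℕ∞) := by norm_num
  · intro x hx y hy hxy
    have hsub : Icc x y ⊆ I := fun t ht => hI.out hx.1 hy.1 ht
    have hc : ContinuousOn Y (Icc x y) :=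
      fun t ht => (hd t (hsub ht)).continuousAt.continuousWithinAt
    by_cases hz : ∃ z ∈ Ioo x y, Y z = 0
    · obtain ⟨z, hz1, hz2⟩ := hz
      exact ⟨z, Or.inr ⟨hsub ⟨hz1.1.le, hz1.2.le⟩, hz2⟩, hz1.1, hz1.2⟩
    · push Not at hz
      have hxk : Y x = k ∨ Y x = -k := by
        have := hx.2
        rcases abs_choice (Y x) with h | h
        · left; rw [← this, h]
        · right; rw [← this, h]; ring
      have hyk : Y y = k ∨ Y y = -k := by
        have := hy.2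
        rcases abs_choice (Y y) with h | h
        · left; rw [← this, h]
        · right; rw [← this, h]; ring
      have heq : Y x = Y y := by
        by_contra hne
        have : (0 : ℝ) ∈ Y '' (Ioo x y) ∨ False := by
          left
          rcases hxk with h1 | h1 <;> rcases hyk with h2 | h2
          · exact absurd (h1.trans h2.symm) hne
          · exact intermediate_value_Ioo' hxy.le hc ⟨by rw [h2]; linarith, by rw [h1]; exact hk⟩
          · exact intermediate_value_Ioo hxy.le hc ⟨by rw [h1]; linarith, by rw [h2]; exact hk⟩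
          · exact absurd (h1.trans h2.symm) hne
        rcases this with ⟨z, hz1, hz2⟩ | h
        · exact hz z hz1 hz2
        · exact h
      obtain ⟨z, hz1, hz2⟩ := exists_hasDerivAt_eq_zero (f := Y) (f' := Y') hxy hc heq
        (fun t ht => hd t (hsub ⟨ht.1.le, ht.2.le⟩))
      exact ⟨z, Or.inl ⟨hsub ⟨hz1.1.le, hz1.2.le⟩, hz2⟩, hz1.1, hz1.2⟩

end Pool.Agent.Zk48.CE
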