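import Pool.Agent.Zk48.CE.Count

set_option autoImplicit false

namespace Pool.Agent.Zk48.CE

open Real

noncomputable section

/-- sine component (times the sine of the inclination) -/
def X (μ η ν : ℝ) : ℝ := μ * cos ν + η * sin ν
/-- cosine component (times the sine of the inclination) -/
def Z (μ η ν : ℝ) : ℝ := η * cos ν - μ * sin ν
/-- squared ratio (distance to the axis)/(distance to the focus) -/
def sg (μ η ν : ℝ) : ℝ := 1 - X μ η ν ^ 2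
def g (μ η ν : ℝ) : ℝ := X μ η ν * Z μ η ν / sg μ η ν
def kp (μ η ν : ℝ) : ℝ := (1 - μ ^ 2 - η ^ 2) / sg μ η ν ^ 2
def w (e ν : ℝ) : ℝ := 1 + e * cos ν
def T (e ν : ℝ) : ℝ := e * sin ν / w e ν
def yy (e ν : ℝ) : ℝ := e * cos ν / w e ν
def D (e μ η ν : ℝ) : ℝ :=
  (kp μ η ν - 1) * T e ν - T e ν ^ 3 + g μ η ν * (yy e ν + T e ν ^ 2)
def D' (e μ η ν : ℝ) : ℝ :=
  4 * g μ η ν * D e μ η ν - 3 * (yy e ν * (T e ν ^ 2 - g μ η ν * T e ν + g μ η ν ^ 2)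
    - g μ η ν * T e ν + T e ν ^ 2 * (T e ν - g μ η ν) ^ 2)
/-- slope function `dρ/d(r²/2)` -/
def Y (e μ η ν : ℝ) : ℝ := w e ν * √(sg μ η ν) * (1 - g μ η ν / T e ν)

theorem X_sq_add_Z_sq (μ η ν : ℝ) : X μ η ν ^ 2 + Z μ η ν ^ 2 = μ ^ 2 + η ^ 2 := by
  unfold X Z
  linear_combination (μ ^ 2 + η ^ 2) * Real.sin_sq_add_cos_sq ν

theorem sg_pos {μ η : ℝ} (h : μ ^ 2 + η ^ 2 < 1) (ν : ℝ) : 0 < sg μ η ν := by
  have := X_sq_add_Z_sq μ η ν
  unfold sg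
  nlinarith [sq_nonneg (Z μ η ν)]

theorem w_pos {e : ℝ} (h0 : 0 < e) (h1 : e < 1) (ν : ℝ) : 0 < w e ν := by
  unfold w
  nlinarith [Real.neg_one_le_cos ν, Real.cos_le_one ν]

theorem hasDerivAt_X (μ η ν : ℝ) : HasDerivAt (X μ η) (Z μ η ν) ν := by
  have h : HasDerivAt (X μ η) _ ν :=
    ((Real.hasDerivAt_cos ν).const_mul μ).add ((Real.hasDerivAt_sin ν).const_mul η)
  refine h.congr_deriv ?_
  unfold Z; ring

theorem hasDerivAt_Z (μ η ν : ℝ) : HasDerivAt (Z μ η) (-X μ η ν) ν := by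
  have h : HasDerivAt (Z μ η) _ ν :=
    ((Real.hasDerivAt_cos ν).const_mul η).sub ((Real.hasDerivAt_sin ν).const_mul μ)
  refine h.congr_deriv ?_
  unfold X; ring

theorem hasDerivAt_sg (μ η ν : ℝ) :
    HasDerivAt (sg μ η) (-2 * X μ η ν * Z μ η ν) ν := by
  have h : HasDerivAt (sg μ η) _ ν := ((hasDerivAt_X μ η ν).pow 2).const_sub 1
  refine h.congr_deriv ?_
  push_cast
  ring

theorem hasDerivAt_g {μ η : ℝ} (h : μ ^ 2 + η ^ 2 < 1) (ν : ℝ) :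
    HasDerivAt (g μ η) (g μ η ν ^ 2 + 1 - kp μ η ν) ν := by
  have hs := sg_pos h ν
  have h1 := ((hasDerivAt_X μ η ν).mul (hasDerivAt_Z μ η ν)).div (hasDerivAt_sg μ η ν) hs.ne'
  have hXZ := X_sq_add_Z_sq μ η ν
  refine h1.congr_deriv ?_
  unfold g kp
  have hsdef : sg μ η ν = 1 - X μ η ν ^ 2 := rfl
  simp only [Pi.mul_apply]
  rw [show (1 - μ ^ 2 - η ^ 2 : ℝ) = 1 - X μ η ν ^ 2 - Z μ η ν ^ 2 by linarith]
  field_simp
  rw [hsdef]
  ring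

theorem hasDerivAt_kp {μ η : ℝ} (h : μ ^ 2 + η ^ 2 < 1) (ν : ℝ) :
    HasDerivAt (kp μ η) (4 * g μ η ν * kp μ η ν) ν := by
  have hs := sg_pos h ν
  have h1 := (hasDerivAt_const ν (1 - μ ^ 2 - η ^ 2)).div
    ((hasDerivAt_sg μ η ν).pow 2) (pow_ne_zero 2 hs.ne')
  refine h1.congr_deriv ?_
  unfold g kp
  simp only [Pi.pow_apply]
  push_cast
  field_simp
  ring

theorem hasDerivAt_w (e ν : ℝ) : HasDerivAt (w e) (-(e * sin ν)) ν := by
  have h : HasDerivAt (w e) _ ν := ((Real.hasDerivAt_cos ν).const_mul e).const_add 1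
  refine h.congr_deriv ?_
  ring

theorem one_div_w {e ν : ℝ} (hw : w e ν ≠ 0) : 1 / w e ν = 1 - yy e ν := by
  unfold yy
  field_simp
  unfold w; ring

theorem hasDerivAt_T {e ν : ℝ} (hw : w e ν ≠ 0) :
    HasDerivAt (T e) (yy e ν + T e ν ^ 2) ν := by
  have h := ((Real.hasDerivAt_sin ν).const_mul e).div (hasDerivAt_w e ν) hw
  refine h.congr_deriv ?_
  unfold yy T
  field_simp
  ring

theorem hasDerivAt_yy {e ν : ℝ} (hw : w e ν ≠ 0) :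
    HasDerivAt (yy e) (-(1 - yy e ν) * T e ν) ν := by
  have h := ((Real.hasDerivAt_cos ν).const_mul e).div (hasDerivAt_w e ν) hw
  refine h.congr_deriv ?_
  rw [← one_div_w hw]
  unfold T
  field_simp
  unfold w
  ring

theorem hasDerivAt_D {e μ η : ℝ} (h : μ ^ 2 + η ^ 2 < 1) {ν : ℝ} (hw : w e ν ≠ 0) :
    HasDerivAt (D e μ η) (D' e μ η ν) ν := by
  have hT := hasDerivAt_T hw
  have hy := hasDerivAt_yy hw
  have hg := hasDerivAt_g h ν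
  have hk := hasDerivAt_kp h ν
  have h1 := (((hk.sub_const 1).mul hT).sub (hT.pow 3)).add (hg.mul (hy.add (hT.pow 2)))
  have h2 : HasDerivAt (D e μ η) _ ν := h1
  refine h2.congr_deriv ?_
  unfold D' D
  simp only [Pi.add_apply, Pi.pow_apply]
  ring

/-- relation coming from the argument of the pericentre -/
theorem K_rel {μ η : ℝ} (h : μ ^ 2 + η ^ 2 < 1) (ν : ℝ) :
    μ * η / sg μ η ν = g μ η ν * (cos ν ^ 2 - sin ν ^ 2)
      - (1 - kp μ η ν - g μ η ν ^ 2) * (sin ν * cos ν) := by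
  have hs := sg_pos h ν
  have hXZ := X_sq_add_Z_sq μ η ν
  have h1 : 1 - kp μ η ν - g μ η ν ^ 2 = (Z μ η ν ^ 2 - X μ η ν ^ 2) / sg μ η ν := by
    unfold kp g
    rw [show (1 - μ ^ 2 - η ^ 2 : ℝ) = 1 - X μ η ν ^ 2 - Z μ η ν ^ 2 by linarith]
    have hsdef : sg μ η ν = 1 - X μ η ν ^ 2 := rfl
    field_simp
    rw [hsdef]
    ring
  rw [h1]
  unfold g
  field_simp
  unfold X Z
  have hc : cos ν ^ 2 = 1 - sin ν ^ 2 := by linarith [Real.sin_sq_add_cos_sq ν]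
  have hc4 : cos ν ^ 4 = (1 - sin ν ^ 2) ^ 2 := by rw [← hc]; ring
  ring_nf
  simp only [hc, hc4]
  ring

theorem T_D' {e μ η : ℝ} (h : μ ^ 2 + η ^ 2 < 1) {ν : ℝ} (hw : w e ν ≠ 0) :
    T e ν * D' e μ η ν = (4 * g μ η ν * T e ν + 3 * yy e ν) * D e μ η ν
      - 3 * (e ^ 2 * (μ * η / sg μ η ν) / w e ν ^ 2
        + T e ν ^ 3 * (T e ν - g μ η ν) ^ 2) := by
  have hK := K_rel h ν
  have h2 : e ^ 2 * (μ * η / sg μ η ν) / w e ν ^ 2 =
      g μ η ν * (yy e ν ^ 2 - T e ν ^ 2) - (1 - kp μ η ν - g μ η ν ^ 2) * (T e ν * yy e ν) := by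
    rw [hK]
    unfold yy T
    field_simp
  rw [h2]
  unfold D' D
  ring

theorem hasDerivAt_Y {e μ η : ℝ} (h : μ ^ 2 + η ^ 2 < 1) {ν : ℝ} (hw : w e ν ≠ 0)
    (hT0 : T e ν ≠ 0) :
    HasDerivAt (Y e μ η) (w e ν * √(sg μ η ν) * D e μ η ν / T e ν ^ 2) ν := by
  have hs := sg_pos h ν
  have hT := hasDerivAt_T hw
  have hg := hasDerivAt_g h ν
  have hsq := (hasDerivAt_sg μ η ν).sqrt hs.ne'
  have h1 := ((hasDerivAt_w e ν).mul hsq).mul ((hg.div hT hT0).const_sub 1)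
  have h2 : HasDerivAt (Y e μ η) _ ν := h1
  refine h2.congr_deriv ?_
  have hss : √(sg μ η ν) ≠ 0 := (Real.sqrt_pos.mpr hs).ne'
  have hs2 : √(sg μ η ν) ^ 2 = sg μ η ν := Real.sq_sqrt hs.le
  have he : e * sin ν = w e ν * T e ν := by unfold T; field_simp
  have hXZ : X μ η ν * Z μ η ν = g μ η ν * √(sg μ η ν) ^ 2 := by
    rw [hs2]; unfold g; field_simp
  simp only [Pi.div_apply, Pi.mul_apply]
  rw [he, show -2 * X μ η ν * Z μ η ν = -2 * (X μ η ν * Z μ η ν) by ring, hXZ]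
  unfold D
  field_simp
  ring

end

end Pool.Agent.Zk48.CE
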