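import Pool.Agent.Zk48.CE.ClaimB

set_option autoImplicit false

namespace Pool.Agent.Zk48.CE

open Real Set Filter Topology

noncomputable section

/-! ### zeros of trigonometric polynomials of degree two -/

theorem injOn_cis : InjOn (fun ν : ℝ => (Real.cos ν : ℂ) + (Real.sin ν : ℂ) * Complex.I)
    (Ioc (-π) π) := by
  intro x hx y hy hxy
  have h1 := Complex.arg_cos_add_sin_mul_I hx
  have h2 := Complex.arg_cos_add_sin_mul_I hy
  have h3 : (Complex.cos x + Complex.sin x * Complex.I) =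
      Complex.cos y + Complex.sin y * Complex.I := by
    simpa [Complex.ofReal_cos, Complex.ofReal_sin] using hxy
  rw [← h1, ← h2, h3]

theorem trig_zeros_le_four (a0 a1 b1 a2 b2 : ℝ)
    (hne : ∃ ν : ℝ, a0 + a1 * cos ν + b1 * sin ν + a2 * (cos ν ^ 2 - sin ν ^ 2)
      + b2 * (2 * sin ν * cos ν) ≠ 0) :
    {ν ∈ Ioc (-π) π | a0 + a1 * cos ν + b1 * sin ν + a2 * (cos ν ^ 2 - sin ν ^ 2)
      + b2 * (2 * sin ν * cos ν) = 0}.encard ≤ (4 : ℕ) := by
  classical
  let P : Polynomial ℂ := Polynomial.C (((a2 : ℂ) - Complex.I * b2) / 2) * Polynomial.X ^ 4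
    + Polynomial.C (((a1 : ℂ) - Complex.I * b1) / 2) * Polynomial.X ^ 3
    + Polynomial.C (a0 : ℂ) * Polynomial.X ^ 2
    + Polynomial.C (((a1 : ℂ) + Complex.I * b1) / 2) * Polynomial.X
    + Polynomial.C (((a2 : ℂ) + Complex.I * b2) / 2)
  have key : ∀ I a0 a1 b1 a2 b2 c s : ℂ, I ^ 2 = -1 → c ^ 2 + s ^ 2 - 1 = 0 →
        (a2 - I * b2) / 2 * (c + s * I) ^ 4 + (a1 - I * b1) / 2 * (c + s * I) ^ 3
          + a0 * (c + s * I) ^ 2 + (a1 + I * b1) / 2 * (c + s * I) + (a2 + I * b2) / 2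
        = (c + s * I) ^ 2 * (a0 + a1 * c + b1 * s + a2 * (c ^ 2 - s ^ 2)
          + b2 * (2 * s * c)) := by
    intro I a0 a1 b1 a2 b2 c s hI hcs
    have hu1 : (c + s * I) ^ 2 + 1 - 2 * c * (c + s * I) = 0 := by
      linear_combination s ^ 2 * hI - hcs
    have hu2 : (c + s * I) ^ 2 - 1 - 2 * I * s * (c + s * I) = 0 := by
      linear_combination (- s ^ 2) * hI + hcs
    have hu3 : (c + s * I) ^ 4 + 1 - 2 * (c ^ 2 - s ^ 2) * (c + s * I) ^ 2 = 0 := by
      linear_combination ((c + s * I) ^ 2 + 1 + 2 * c * (c + s * I)) * hu1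
        + (2 * (c + s * I) ^ 2) * hcs
    have hu4 : (c + s * I) ^ 4 - 1 - 2 * I * (2 * s * c) * (c + s * I) ^ 2 = 0 := by
      linear_combination ((c + s * I) ^ 2 + 1) * hu2 + (2 * I * s * (c + s * I)) * hu1
    linear_combination (a2 / 2 : ℂ) * hu3 - (I * b2 / 2) * hu4 + (a1 / 2 * (c + s * I)) * hu1
      - (I * b1 / 2 * (c + s * I)) * hu2
      - (b1 * s * (c + s * I) ^ 2 + 2 * b2 * s * c * (c + s * I) ^ 2) * hI
  have hPeval : ∀ ν : ℝ, P.eval ((Real.cos ν : ℂ) + (Real.sin ν : ℂ) * Complex.I) =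
      ((Real.cos ν : ℂ) + (Real.sin ν : ℂ) * Complex.I) ^ 2 *
        ((a0 + a1 * cos ν + b1 * sin ν + a2 * (cos ν ^ 2 - sin ν ^ 2)
      + b2 * (2 * sin ν * cos ν) : ℝ) : ℂ) := by
    intro ν
    have hcs : Real.cos ν ^ 2 + Real.sin ν ^ 2 - 1 = 0 := by
      have := Real.sin_sq_add_cos_sq ν
      linarith
    simp only [P, Polynomial.eval_add, Polynomial.eval_mul, Polynomial.eval_pow,
      Polynomial.eval_C, Polynomial.eval_X]
    generalize Real.cos ν = c at hcs ⊢
    generalize Real.sin ν = s at hcs ⊢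
    have hcs' : (c : ℂ) ^ 2 + (s : ℂ) ^ 2 - 1 = 0 := by exact_mod_cast hcs
    rw [key Complex.I a0 a1 b1 a2 b2 c s Complex.I_sq hcs']
    push_cast
    ring
  have hP0 : P ≠ 0 := by
    intro h0
    obtain ⟨ν, hν⟩ := hne
    have h1 := hPeval ν
    rw [h0, Polynomial.eval_zero] at h1
    have h2 : ((Real.cos ν : ℂ) + (Real.sin ν : ℂ) * Complex.I) ≠ 0 := by
      intro h
      have h3 : (Real.sin ν : ℂ) ^ 2 + (Real.cos ν : ℂ) ^ 2 = 1 := by
        exact_mod_cast Real.sin_sq_add_cos_sq ν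
      have h4 : (1 : ℂ) = ((Real.cos ν : ℂ) + (Real.sin ν : ℂ) * Complex.I) *
          ((Real.cos ν : ℂ) - (Real.sin ν : ℂ) * Complex.I) := by
        linear_combination (Real.sin ν : ℂ) ^ 2 * Complex.I_sq - h3
      rw [h, zero_mul] at h4
      exact one_ne_zero h4
    rcases mul_eq_zero.mp h1.symm with h | h
    · exact h2 (pow_eq_zero_iff (two_ne_zero)|>.mp h)
    · exact hν (by exact_mod_cast h)
  have hdeg : P.natDegree ≤ 4 := by
    simp only [P]
    compute_degree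
  set S := {ν ∈ Ioc (-π) π | a0 + a1 * cos ν + b1 * sin ν + a2 * (cos ν ^ 2 - sin ν ^ 2)
      + b2 * (2 * sin ν * cos ν) = 0} with hS
  have hmaps : (fun ν : ℝ => (Real.cos ν : ℂ) + (Real.sin ν : ℂ) * Complex.I) '' S ⊆
      (P.roots.toFinset : Set ℂ) := by
    rintro _ ⟨ν, hν, rfl⟩
    simp only [Finset.mem_coe, Multiset.mem_toFinset]
    rw [Polynomial.mem_roots hP0]
    show P.eval _ = 0
    rw [hPeval ν, hν.2]
    simp
  have hinj : InjOn (fun ν : ℝ => (Real.cos ν : ℂ) + (Real.sin ν : ℂ) * Complex.I) S :=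
    injOn_cis.mono (fun x hx => hx.1)
  calc S.encard = _ := (hinj.encard_image).symm
    _ ≤ (P.roots.toFinset : Set ℂ).encard := Set.encard_le_encard hmaps
    _ = (P.roots.toFinset.card : ℕ) := Set.encard_coe_eq_coe_finsetCard _
    _ ≤ (4 : ℕ) := by
        exact_mod_cast (Multiset.toFinset_card_le _).trans ((Polynomial.card_roots' P).trans hdeg)

/-! ### zeros of `T - g` -/

variable {e μ η : ℝ}

theorem T_eq_g_iff (h0 : 0 < e) (h1 : e < 1) (hs : μ ^ 2 + η ^ 2 < 1) (ν : ℝ) :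
    T e ν = g μ η ν ↔ 0 + (-e * η * μ) * cos ν + (e - e * η ^ 2) * sin ν
      + (- (μ * η)) * (cos ν ^ 2 - sin ν ^ 2) + (-(η ^ 2 - μ ^ 2) / 2) * (2 * sin ν * cos ν) = 0 := by
  have hw := w_pos h0 h1 ν
  have hsg := sg_pos hs ν
  have h2 : sin ν * X μ η ν + cos ν * Z μ η ν = η := by
    unfold X Z
    linear_combination η * Real.sin_sq_add_cos_sq ν
  have h3 : e * sin ν * sg μ η ν - X μ η ν * Z μ η ν * w e ν =
      0 + (-e * η * μ) * cos ν + (e - e * η ^ 2) * sin ν
      + (- (μ * η)) * (cos ν ^ 2 - sin ν ^ 2) + (-(η ^ 2 - μ ^ 2) / 2) * (2 * sin ν * cos ν) := by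
    have h4 : e * sin ν * sg μ η ν - X μ η ν * Z μ η ν * w e ν =
        e * sin ν - e * X μ η ν * (sin ν * X μ η ν + cos ν * Z μ η ν) - X μ η ν * Z μ η ν := by
      unfold sg w; ring
    rw [h4, h2]
    unfold X Z
    ring
  rw [← h3]
  unfold T g
  rw [div_eq_div_iff hw.ne' hsg.ne']
  constructor
  · intro h; linarith
  · intro h; linarith

theorem V_encard (h0 : 0 < e) (h1 : e < 1) (hs : μ ^ 2 + η ^ 2 < 1) :
    {ν ∈ Ioc (-π) π | T e ν = g μ η ν}.encard ≤ (4 : ℕ) := by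
  have h := trig_zeros_le_four 0 (-e * η * μ) (e - e * η ^ 2) (- (μ * η)) (-(η ^ 2 - μ ^ 2) / 2) ?_
  · refine le_trans (Set.encard_le_encard ?_) h
    rintro ν ⟨hν, h2⟩
    exact ⟨hν, (T_eq_g_iff h0 h1 hs ν).mp h2⟩
  · by_cases hK : μ * η = 0
    · refine ⟨π / 2, ?_⟩
      rw [Real.cos_pi_div_two, Real.sin_pi_div_two]
      have hη : η ^ 2 < 1 := by nlinarith [sq_nonneg μ]
      have : 0 < e * (1 - η ^ 2) := mul_pos h0 (by linarith)
      have h3 : 0 + -e * η * μ * 0 + (e - e * η ^ 2) * 1 + -(μ * η) * (0 ^ 2 - 1 ^ 2)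
        + -(η ^ 2 - μ ^ 2) / 2 * (2 * 1 * 0) = e * (1 - η ^ 2) := by rw [hK]; ring
      rw [h3]
      exact this.ne'
    · refine ⟨0, ?_⟩
      rw [Real.cos_zero, Real.sin_zero]
      have h3 : 0 + -e * η * μ * 1 + (e - e * η ^ 2) * 0 + -(μ * η) * (1 ^ 2 - 0 ^ 2)
        + -(η ^ 2 - μ ^ 2) / 2 * (2 * 0 * 1) = -(1 + e) * (μ * η) := by ring
      rw [h3]
      exact mul_ne_zero (by linarith) hK

/-! ### inflections on the two halves, all sign patterns -/

theorem D_neg_arg (ν : ℝ) : D e μ η (-ν) = - D e (-μ) η ν := by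
  have hX : X μ η (-ν) = - X (-μ) η ν := by unfold X; simp; ring
  have hZ : Z μ η (-ν) = Z (-μ) η ν := by unfold Z; simp
  have hsg : sg μ η (-ν) = sg (-μ) η ν := by unfold sg; rw [hX]; ring
  have hg : g μ η (-ν) = - g (-μ) η ν := by unfold g; rw [hX, hZ, hsg]; ring
  have hk : kp μ η (-ν) = kp (-μ) η ν := by unfold kp; rw [hsg]; ring
  have hw : w e (-ν) = w e ν := by unfold w; simp
  have hT : T e (-ν) = - T e ν := by unfold T; rw [hw]; simp; ring
  have hy : yy e (-ν) = yy e ν := by unfold yy; rw [hw]; simp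
  unfold D
  rw [hg, hk, hT, hy]
  ring

theorem D_neg_neg (ν : ℝ) : D e (-μ) (-η) ν = D e μ η ν := by
  have hX : X (-μ) (-η) ν = - X μ η ν := by unfold X; ring
  have hZ : Z (-μ) (-η) ν = - Z μ η ν := by unfold Z; ring
  have hsg : sg (-μ) (-η) ν = sg μ η ν := by unfold sg; rw [hX]; ring
  have hg : g (-μ) (-η) ν = g μ η ν := by unfold g; rw [hX, hZ, hsg]; ring
  have hk : kp (-μ) (-η) ν = kp μ η ν := by unfold kp; rw [hsg]; ring
  unfold D
  rw [hg, hk]

theorem lower_le_three_of_pos (h0 : 0 < e) (h1 : e < 1) (hK : 0 < μ * η)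
    (hs : μ ^ 2 + η ^ 2 < 1) :
    {x ∈ Ioo (-π) 0 | D e μ η x = 0}.encard ≤ (3 : ℕ) := by
  rcases lt_or_gt_of_ne (left_ne_zero_of_mul hK.ne') with h | h
  · have hη : η < 0 := by
      by_contra hcon
      have := mul_nonpos_of_nonpos_of_nonneg h.le (not_lt.mp hcon)
      linarith
    have := lower_zeros_le_three (μ := -μ) (η := -η) h0 h1 (by linarith) (by linarith)
      (by nlinarith)
    simpa only [D_neg_neg] using this
  · have hη : 0 < η := by
      by_contra hcon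
      have := mul_nonpos_of_nonneg_of_nonpos h.le (not_lt.mp hcon)
      linarith
    exact lower_zeros_le_three h0 h1 h hη hs

theorem upper_eq_neg_image :
    {x ∈ Ioo 0 π | D e μ η x = 0} = Neg.neg '' {x ∈ Ioo (-π) 0 | D e (-μ) η x = 0} := by
  ext x
  constructor
  · rintro ⟨hx, h⟩
    refine ⟨-x, ⟨⟨by linarith [hx.2], by linarith [hx.1]⟩, ?_⟩, by ring⟩
    have := D_neg_arg (e := e) (μ := -μ) (η := η) x
    rw [this, neg_neg, h, neg_zero]
  · rintro ⟨y, ⟨hy, h⟩, rfl⟩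
    refine ⟨⟨by linarith [hy.2], by linarith [hy.1]⟩, ?_⟩
    rw [D_neg_arg, h, neg_zero]

theorem lower_eq_neg_image :
    {x ∈ Ioo (-π) 0 | D e μ η x = 0} = Neg.neg '' {x ∈ Ioo 0 π | D e (-μ) η x = 0} := by
  ext x
  constructor
  · rintro ⟨hx, h⟩
    refine ⟨-x, ⟨⟨by linarith [hx.2], by linarith [hx.1]⟩, ?_⟩, by ring⟩
    have := D_neg_arg (e := e) (μ := -μ) (η := η) x
    rw [this, neg_neg, h, neg_zero]
  · rintro ⟨y, ⟨hy, h⟩, rfl⟩
    refine ⟨⟨by linarith [hy.2], by linarith [hy.1]⟩, ?_⟩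
    rw [D_neg_arg, h, neg_zero]

theorem D_zeros (h0 : 0 < e) (h1 : e < 1) (hs : μ ^ 2 + η ^ 2 < 1) :
    ∃ m n : ℕ, {x ∈ Ioo 0 π | D e μ η x = 0}.encard ≤ m ∧
      {x ∈ Ioo (-π) 0 | D e μ η x = 0}.encard ≤ n ∧ m + n ≤ 4 ∧ (μ * η = 0 → m + n ≤ 2) := by
  rcases lt_trichotomy (μ * η) 0 with h | h | h
  · refine ⟨3, 1, ?_, ?_, le_refl _, fun h' => absurd h' h.ne⟩
    · rw [upper_eq_neg_image, (neg_injective.injOn).encard_image]
      exact lower_le_three_of_pos h0 h1 (by linarith) (by nlinarith)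
    · rw [lower_eq_neg_image, (neg_injective.injOn).encard_image]
      exact upper_zeros_le_one h0 h1 (by linarith) (by nlinarith)
  · exact ⟨1, 1, upper_zeros_le_one h0 h1 h.ge hs, lower_zeros_le_one h0 h1 h hs,
      by norm_num, fun _ => le_refl _⟩
  · exact ⟨1, 3, upper_zeros_le_one h0 h1 h.le hs, lower_le_three_of_pos h0 h1 h hs,
      le_refl _, fun h' => absurd h' h.ne'⟩

/-! ### the count -/

/-- pairs (true anomaly, sign) of critical points, inclination different from a right angle -/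
def Crit (R p e μ η : ℝ) : Set (ℝ × ℝ) :=
  {x | x.1 ∈ Ioc (-π) π ∧ (x.2 = 1 ∨ x.2 = -1) ∧
    x.2 * (R * (√(sg μ η x.1) * (T e x.1 - g μ η x.1))) = p / w e x.1 * T e x.1}

theorem crit_le_ten {R p : ℝ} (hR : 0 < R) (hp : 0 < p) (h0 : 0 < e) (h1 : e < 1)
    (hs : μ ^ 2 + η ^ 2 < 1) : (Crit R p e μ η).encard ≤ (10 : ℕ) := by
  classical
  set V := {ν ∈ Ioc (-π) π | T e ν = g μ η ν} with hV
  have hV4 : V.encard ≤ (4 : ℕ) := V_encard h0 h1 hs
  have hVfin : V.Finite := Set.finite_of_encard_le_coe hV4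
  set VU := {ν ∈ Ioo 0 π | T e ν = g μ η ν} with hVU
  set VL := {ν ∈ Ioo (-π) 0 | T e ν = g μ η ν} with hVL
  set V0 : Set ℝ := {ν ∈ ({0, π} : Set ℝ) | T e ν = g μ η ν} with hV0
  have hsubU : VU ⊆ V := fun x hx => ⟨⟨by linarith [hx.1.1, Real.pi_pos], hx.1.2.le⟩, hx.2⟩
  have hsubL : VL ⊆ V := fun x hx => ⟨⟨hx.1.1, by linarith [hx.1.2, Real.pi_pos]⟩, hx.2⟩
  have hsub0 : V0 ⊆ V := by
    rintro x ⟨hx | hx, h⟩
    · subst hx; exact ⟨⟨by linarith [Real.pi_pos], Real.pi_pos.le⟩, h⟩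
    · rw [mem_singleton_iff] at hx; subst hx
      exact ⟨⟨by linarith [Real.pi_pos], le_refl _⟩, h⟩
  have hsum : VU.ncard + VL.ncard + V0.ncard ≤ 4 := by
    have hUL : Disjoint VU VL := by
      rw [Set.disjoint_left]
      intro x hx hy
      linarith [hx.1.1, hy.1.2]
    have h0' : Disjoint (VU ∪ VL) V0 := by
      rw [Set.disjoint_left]
      rintro x (hx | hx) ⟨hy | hy, -⟩
      · linarith [hx.1.1]
      · rw [mem_singleton_iff] at hy; linarith [hx.1.2]
      · linarith [hx.1.2]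
      · rw [mem_singleton_iff] at hy; linarith [hx.1.2, Real.pi_pos]
    rw [← Set.ncard_union_eq hUL (hVfin.subset hsubU) (hVfin.subset hsubL),
      ← Set.ncard_union_eq h0' ((hVfin.subset hsubU).union (hVfin.subset hsubL))
        (hVfin.subset hsub0)]
    have h5 : (VU ∪ VL ∪ V0).ncard ≤ V.ncard :=
      Set.ncard_le_ncard (union_subset (union_subset hsubU hsubL) hsub0) hVfin
    have h6 : V.ncard ≤ 4 := by
      rw [← hVfin.cast_ncard_eq] at hV4
      exact_mod_cast hV4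
    omega
  obtain ⟨m, n, hm, hn, hmn, hmn0⟩ := D_zeros (e := e) (μ := μ) (η := η) h0 h1 hs
  have hk : 0 < p / R := div_pos hp hR
  -- general facts about Y on a half
  have hYzero : ∀ x : ℝ, sin x ≠ 0 → (Y e μ η x = 0 ↔ T e x = g μ η x) := by
    intro x hx
    have hw := w_pos h0 h1 x
    have hsg := Real.sqrt_pos.mpr (sg_pos hs x)
    have hT : T e x ≠ 0 := div_ne_zero (mul_ne_zero h0.ne' hx) hw.ne'
    unfold Y
    rw [mul_eq_zero, or_iff_right (mul_pos hw hsg).ne', sub_eq_zero, eq_comm, div_eq_one_iff_eq hT,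
      eq_comm]
  have hYder : ∀ x : ℝ, sin x ≠ 0 →
      (w e x * √(sg μ η x) * D e μ η x / T e x ^ 2 = 0 ↔ D e μ η x = 0) := by
    intro x hx
    have hw := w_pos h0 h1 x
    have hsg := Real.sqrt_pos.mpr (sg_pos hs x)
    have hT : T e x ≠ 0 := div_ne_zero (mul_ne_zero h0.ne' hx) hw.ne'
    rw [div_eq_zero_iff, or_iff_left (pow_ne_zero 2 hT), mul_eq_zero,
      or_iff_right (mul_pos hw hsg).ne']
  have hYd : ∀ x : ℝ, sin x ≠ 0 →
      HasDerivAt (Y e μ η) (w e x * √(sg μ η x) * D e μ η x / T e x ^ 2) x := by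
    intro x hx
    have hw := w_pos h0 h1 x
    have hT : T e x ≠ 0 := div_ne_zero (mul_ne_zero h0.ne' hx) hw.ne'
    exact hasDerivAt_Y hs hw.ne' hT
  have hsU : ∀ x ∈ Ioo 0 π, sin x ≠ 0 := fun x hx =>
    (Real.sin_pos_of_pos_of_lt_pi hx.1 hx.2).ne'
  have hsL : ∀ x ∈ Ioo (-π) 0, sin x ≠ 0 := fun x hx =>
    (Real.sin_neg_of_neg_of_neg_pi_lt hx.2 hx.1).ne
  have hU := level_le (Y := Y e μ η)
    (Y' := fun x => w e x * √(sg μ η x) * D e μ η x / T e x ^ 2) (I := Ioo 0 π)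
    ordConnected_Ioo (fun x hx => hYd x (hsU x hx)) hk (m := m) (n := VU.ncard)
    (by
      refine le_trans (Set.encard_le_encard ?_) hm
      rintro x ⟨hx, h⟩
      exact ⟨hx, (hYder x (hsU x hx)).mp h⟩)
    (by
      rw [(hVfin.subset hsubU).cast_ncard_eq]
      apply Set.encard_le_encard
      rintro x ⟨hx, h⟩
      exact ⟨hx, (hYzero x (hsU x hx)).mp h⟩)
  have hL := level_le (Y := Y e μ η)
    (Y' := fun x => w e x * √(sg μ η x) * D e μ η x / T e x ^ 2) (I := Ioo (-π) 0)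
    ordConnected_Ioo (fun x hx => hYd x (hsL x hx)) hk (m := n) (n := VL.ncard)
    (by
      refine le_trans (Set.encard_le_encard ?_) hn
      rintro x ⟨hx, h⟩
      exact ⟨hx, (hYder x (hsL x hx)).mp h⟩)
    (by
      rw [(hVfin.subset hsubL).cast_ncard_eq]
      apply Set.encard_le_encard
      rintro x ⟨hx, h⟩
      exact ⟨hx, (hYzero x (hsL x hx)).mp h⟩)
  -- structure of Crit
  have hCrit : Crit R p e μ η ⊆
      (fun x => (x, Y e μ η x / (p / R))) ''
        ({x ∈ Ioo 0 π | |Y e μ η x| = p / R} ∪ {x ∈ Ioo (-π) 0 | |Y e μ η x| = p / R})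
      ∪ V0 ×ˢ ({1, -1} : Set ℝ) := by
    rintro ⟨x, ε⟩ ⟨hx, hε, heq⟩
    simp only at hx hε heq
    have hw := w_pos h0 h1 x
    have hsg := Real.sqrt_pos.mpr (sg_pos hs x)
    by_cases hsin : sin x = 0
    · right
      have hx0 : x = 0 ∨ x = π := by
        rcases eq_or_lt_of_le hx.2 with h | h
        · exact Or.inr h
        · left
          exact (Real.sin_eq_zero_iff_of_lt_of_lt hx.1 h).mp hsin
      have hT : T e x = 0 := by unfold T; rw [hsin]; simp
      rw [hT, mul_zero, zero_sub] at heq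
      have hε0 : ε ≠ 0 := by rcases hε with h | h <;> rw [h] <;> norm_num
      have hg : g μ η x = 0 := by
        have h2 := (mul_eq_zero.mp heq).resolve_left hε0
        have h3 := (mul_eq_zero.mp h2).resolve_left hR.ne'
        have h4 := (mul_eq_zero.mp h3).resolve_left hsg.ne'
        linarith
      refine ⟨⟨?_, by rw [hT, hg]⟩, ?_⟩
      · rcases hx0 with h | h <;> simp [h]
      · rcases hε with h | h <;> simp [h]
    · left
      have hT : T e x ≠ 0 := div_ne_zero (mul_ne_zero h0.ne' hsin) hw.ne'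
      have hY : Y e μ η x = ε * (p / R) := by
        have hε2 : ε * ε = 1 := by rcases hε with h | h <;> rw [h] <;> norm_num
        have h2 : Y e μ η x * (R * T e x) = w e x * (R * (√(sg μ η x) * (T e x - g μ η x))) := by
          unfold Y; field_simp
        have h3 : R * (√(sg μ η x) * (T e x - g μ η x)) = ε * (p / w e x * T e x) := by
          linear_combination ε * heq - (R * (√(sg μ η x) * (T e x - g μ η x))) * hε2
        rw [h3] at h2
        have h4 : R * T e x ≠ 0 := mul_ne_zero hR.ne' hT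
        apply mul_right_cancel₀ h4
        rw [h2]
        field_simp
      have hYabs : |Y e μ η x| = p / R := by
        rw [hY, abs_mul, abs_of_pos hk]
        rcases hε with h | h <;> rw [h] <;> norm_num
      refine ⟨x, ?_, ?_⟩
      · rcases lt_trichotomy x 0 with h | h | h
        · exact Or.inr ⟨⟨hx.1, h⟩, hYabs⟩
        · exact absurd (by rw [h]; exact Real.sin_zero) hsin
        · refine Or.inl ⟨⟨h, ?_⟩, hYabs⟩
          rcases eq_or_lt_of_le hx.2 with h' | h'
          · exact absurd (by rw [h']; exact Real.sin_pi) hsin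
          · exact h'
      · simp only [Prod.mk.injEq, true_and]
        rw [hY]
        field_simp
  have hcount : (Crit R p e μ η).encard ≤
      ((m + VU.ncard + 1 : ℕ) : ℕ∞) + ((n + VL.ncard + 1 : ℕ) : ℕ∞)
        + (V0 ×ˢ ({1, -1} : Set ℝ)).encard := by
    calc (Crit R p e μ η).encard ≤ _ := Set.encard_le_encard hCrit
      _ ≤ _ := Set.encard_union_le _ _
      _ ≤ _ := by
        gcongr
        exact (Set.encard_image_le _ _).trans
          ((Set.encard_union_le _ _).trans (add_le_add hU hL))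
  by_cases hK : μ * η = 0
  · -- at most four from the apsides
    have hV0c : V0.ncard ≤ 2 := by
      refine le_trans (Set.ncard_le_ncard (t := ({0, π} : Set ℝ)) (fun x hx => hx.1)
        (by simp)) ?_
      exact (Set.ncard_insert_le _ _).trans (by simp)
    have hprod : (V0 ×ˢ ({1, -1} : Set ℝ)).encard ≤ ((V0.ncard * 2 : ℕ) : ℕ∞) := by
      have hf : (V0 ×ˢ ({1, -1} : Set ℝ)).Finite := (hVfin.subset hsub0).prod (by simp)
      rw [← hf.cast_ncard_eq, Set.ncard_prod]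
      norm_cast
      apply Nat.mul_le_mul_left
      exact (Set.ncard_insert_le _ _).trans (by simp)
    refine hcount.trans ?_
    refine (add_le_add (le_refl _) hprod).trans ?_
    have := hmn0 hK
    norm_cast
    omega
  · have hV0e : V0 = ∅ := by
      rw [Set.eq_empty_iff_forall_notMem]
      rintro x ⟨hx, h⟩
      have hsg := sg_pos hs x
      have hT : T e x = 0 := by
        rcases hx with hx | hx
        · subst hx; unfold T; simp
        · rw [mem_singleton_iff] at hx; subst hx; unfold T; simp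
      rw [hT] at h
      have hXZ : X μ η x * Z μ η x = 0 := by
        have := h.symm
        unfold g at this
        exact (div_eq_zero_iff.mp this).resolve_right hsg.ne'
      have : X μ η x * Z μ η x = μ * η := by
        rcases hx with hx | hx
        · subst hx; unfold X Z; simp
        · rw [mem_singleton_iff] at hx; subst hx; unfold X Z; simp
      exact hK (by rw [← this, hXZ])
    rw [hV0e] at hcount hsum
    simp only [Set.empty_prod, Set.encard_empty, add_zero] at hcount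
    refine hcount.trans ?_
    norm_cast
    omega

end

end Pool.Agent.Zk48.CE
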