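import Pool.Agent.Zk48.CE.Perp

set_option autoImplicit false

namespace Pool.Agent.Zk48.CE

open Real Set Filter Topology

noncomputable section

abbrev V3 := EuclideanSpace ℝ (Fin 3)

theorem exists_angle {c s : ℝ} (h : c ^ 2 + s ^ 2 = 1) :
    ∃ ν ∈ Ioc (-π) π, cos ν = c ∧ sin ν = s := by
  have hz : ‖(⟨c, s⟩ : ℂ)‖ = 1 := by
    rw [Complex.norm_def, Complex.normSq_mk]
    rw [show c * c + s * s = 1 by nlinarith]
    exact Real.sqrt_one
  have hne : (⟨c, s⟩ : ℂ) ≠ 0 := by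
    intro h0
    rw [h0, norm_zero] at hz
    exact zero_ne_one hz
  refine ⟨Complex.arg ⟨c, s⟩, Complex.arg_mem_Ioc _, ?_, ?_⟩
  · rw [Complex.cos_arg hne, hz]; simp
  · rw [Complex.sin_arg, hz]; simp

/-- true anomaly of a point of the ellipse -/
theorem conv {a e : ℝ} (h0 : 0 < e) (h1 : e < 1) (t : ℝ) :
    ∃ ν ∈ Ioc (-π) π, ∃ τ : ℝ, 0 < τ ∧
      a * (e + cos t) = -(a * (1 - e ^ 2) / w e ν * cos ν) ∧
      a * √(1 - e ^ 2) * sin t = -(a * (1 - e ^ 2) / w e ν * sin ν) ∧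
      τ * (-(a * sin t)) = -(a * (1 - e ^ 2) / w e ν) * (T e ν * cos ν - sin ν) ∧
      τ * (a * √(1 - e ^ 2) * cos t) = -(a * (1 - e ^ 2) / w e ν) * (T e ν * sin ν + cos ν) := by
  have hb2 : 0 < 1 - e ^ 2 := by nlinarith
  have hb : 0 < √(1 - e ^ 2) := Real.sqrt_pos.mpr hb2
  have hbsq : √(1 - e ^ 2) ^ 2 = 1 - e ^ 2 := Real.sq_sqrt hb2.le
  set b := √(1 - e ^ 2) with hbdef
  have hd : 0 < 1 + e * cos t := by nlinarith [Real.neg_one_le_cos t, Real.cos_le_one t]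
  have hcs := Real.sin_sq_add_cos_sq t
  obtain ⟨ν, hν, hc, hs⟩ := exists_angle (c := -(e + cos t) / (1 + e * cos t))
    (s := -(b * sin t) / (1 + e * cos t)) (by
      rw [div_pow, div_pow, ← add_div, div_eq_one_iff_eq (by positivity)]
      have : (-(b * sin t)) ^ 2 = (1 - e ^ 2) * sin t ^ 2 := by rw [← hbsq]; ring
      rw [this, show sin t ^ 2 = 1 - cos t ^ 2 by linarith]
      ring)
  have hw : w e ν = (1 - e ^ 2) / (1 + e * cos t) := by
    unfold w; rw [hc]; field_simp; ring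
  have hT : T e ν = -(e * sin t) / b := by
    unfold T; rw [hw, hs, ← hbsq]; field_simp
  have hr : a * (1 - e ^ 2) / w e ν = a * (1 + e * cos t) := by
    rw [hw]; field_simp
  refine ⟨ν, hν, (1 + e * cos t) / b, by positivity, ?_, ?_, ?_, ?_⟩
  · rw [hr, hc]; field_simp
  · rw [hr, hs]; field_simp
  · rw [hr, hT, hc, hs]
    field_simp
    rw [hbsq]; ring
  · rw [hr, hT, hc, hs]
    field_simp
    rw [show sin t ^ 2 = 1 - cos t ^ 2 by linarith]
    ring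

theorem exists_normal (u v : V3) (hu : ‖u‖ = 1) (hv : ‖v‖ = 1) (huv : inner ℝ u v = 0) :
    ∃ n : V3, ‖n‖ = 1 ∧ ∀ x y : V3, inner ℝ x y = inner ℝ x u * inner ℝ y u
      + inner ℝ x v * inner ℝ y v + inner ℝ x n * inner ℝ y n := by
  classical
  have hon : Orthonormal ℝ (({0, 1} : Set (Fin 3)).domRestrict ![u, v, 0]) := by
    constructor
    · rintro ⟨i, hi | hi⟩
      · subst hi; exact hu
      · rw [mem_singleton_iff] at hi; subst hi; exact hv
    · rintro ⟨i, hi⟩ ⟨j, hj⟩ hij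
      have hij' : i ≠ j := fun h => hij (Subtype.ext h)
      rcases hi with hi | hi <;> rcases hj with hj | hj
      · exact absurd (hi.trans hj.symm) hij'
      · rw [mem_singleton_iff] at hj; subst hi hj; exact huv
      · rw [mem_singleton_iff] at hi; subst hi hj
        exact (real_inner_comm _ _).trans huv
      · rw [mem_singleton_iff] at hi hj; exact absurd (hi.trans hj.symm) hij'
  obtain ⟨b, hb⟩ := hon.exists_orthonormalBasis_extension_of_card_eq (by simp)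
  refine ⟨b 2, b.orthonormal.1 2, fun x y => ?_⟩
  have h0 : b 0 = u := by simpa using hb 0 (by simp)
  have h1 : b 1 = v := by simpa using hb 1 (by simp)
  rw [← b.sum_inner_mul_inner x y, Fin.sum_univ_three, h0, h1]
  simp only [real_inner_comm y]

/-- the real system satisfied by a stationary pair -/
theorem real_system {F u₁ w₁ u₂ w₂ : V3} {R a e : ℝ} (hR : 0 < R) (ha : 0 < a)
    (h0 : 0 < e) (h1 : e < 1)
    (hu₁ : ‖u₁‖ = 1) (hw₁ : ‖w₁‖ = 1) (huw₁ : inner ℝ u₁ w₁ = 0)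
    (hu₂ : ‖u₂‖ = 1) (hw₂ : ‖w₂‖ = 1) (huw₂ : inner ℝ u₂ w₂ = 0) (s t : ℝ)
    (hc1 : inner ℝ ((F + (R * cos s) • u₁ + (R * sin s) • w₁) -
      (F + (a * (e + cos t)) • u₂ + (a * √(1 - e ^ 2) * sin t) • w₂))
      ((-(R * sin s)) • u₁ + (R * cos s) • w₁) = 0)
    (hc2 : inner ℝ ((F + (R * cos s) • u₁ + (R * sin s) • w₁) -
      (F + (a * (e + cos t)) • u₂ + (a * √(1 - e ^ 2) * sin t) • w₂))
      ((-(a * sin t)) • u₂ + (a * √(1 - e ^ 2) * cos t) • w₂) = 0) :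
    ∃ ν ∈ Ioc (-π) π,
      F + (a * (e + cos t)) • u₂ + (a * √(1 - e ^ 2) * sin t) • w₂ =
        F + (-(a * (1 - e ^ 2) / w e ν * cos ν)) • u₂
          + (-(a * (1 - e ^ 2) / w e ν * sin ν)) • w₂ ∧
      (cos ν * inner ℝ u₂ u₁ + sin ν * inner ℝ w₂ u₁) * sin s =
        (cos ν * inner ℝ u₂ w₁ + sin ν * inner ℝ w₂ w₁) * cos s ∧
      R * (cos s * ((T e ν * cos ν - sin ν) * inner ℝ u₂ u₁
          + (T e ν * sin ν + cos ν) * inner ℝ w₂ u₁)
        + sin s * ((T e ν * cos ν - sin ν) * inner ℝ u₂ w₁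
          + (T e ν * sin ν + cos ν) * inner ℝ w₂ w₁)) =
        -(a * (1 - e ^ 2) / w e ν * T e ν) := by
  obtain ⟨ν, hν, τ, hτ, e1, e2, e3, e4⟩ := conv (a := a) h0 h1 t
  refine ⟨ν, hν, by rw [e1, e2], ?_, ?_⟩
  · have hu11 : inner ℝ u₁ u₁ = 1 := by rw [real_inner_self_eq_norm_sq, hu₁]; norm_num
    have hw11 : inner ℝ w₁ w₁ = 1 := by rw [real_inner_self_eq_norm_sq, hw₁]; norm_num
    have hwu1 : inner ℝ w₁ u₁ = 0 := by rw [real_inner_comm]; exact huw₁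
    have hr : a * (1 - e ^ 2) / w e ν ≠ 0 := by
      have := w_pos h0 h1 ν
      have : 0 < 1 - e ^ 2 := by nlinarith
      positivity
    rw [e1, e2] at hc1
    generalize a * (1 - e ^ 2) / w e ν = r at *
    simp only [inner_sub_left, inner_add_left, inner_add_right, inner_smul_left,
      inner_smul_right, hu11, hw11, huw₁, hwu1, conj_trivial] at hc1
    have h3 : R * (r * ((cos ν * inner ℝ u₂ u₁ + sin ν * inner ℝ w₂ u₁) * sin s -
        (cos ν * inner ℝ u₂ w₁ + sin ν * inner ℝ w₂ w₁) * cos s)) = 0 := by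
      linear_combination (-1) * hc1
    have h4 := (mul_eq_zero.mp ((mul_eq_zero.mp h3).resolve_left hR.ne')).resolve_left hr
    linarith
  · have hu22 : inner ℝ u₂ u₂ = 1 := by rw [real_inner_self_eq_norm_sq, hu₂]; norm_num
    have hw22 : inner ℝ w₂ w₂ = 1 := by rw [real_inner_self_eq_norm_sq, hw₂]; norm_num
    have hwu2 : inner ℝ w₂ u₂ = 0 := by rw [real_inner_comm]; exact huw₂
    have hr : a * (1 - e ^ 2) / w e ν ≠ 0 := by
      have := w_pos h0 h1 ν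
      have : 0 < 1 - e ^ 2 := by nlinarith
      positivity
    have c1 : inner ℝ u₁ u₂ = inner ℝ u₂ u₁ := real_inner_comm _ _
    have c2 : inner ℝ u₁ w₂ = inner ℝ w₂ u₁ := real_inner_comm _ _
    have c3 : inner ℝ w₁ u₂ = inner ℝ u₂ w₁ := real_inner_comm _ _
    have c4 : inner ℝ w₁ w₂ = inner ℝ w₂ w₁ := real_inner_comm _ _
    rw [e1, e2] at hc2
    generalize -(a * sin t) = p1 at *
    generalize a * √(1 - e ^ 2) * cos t = p2 at *
    generalize a * (1 - e ^ 2) / w e ν = r at *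
    simp only [inner_sub_left, inner_add_left, inner_add_right, inner_smul_left,
      inner_smul_right, hu22, hw22, huw₂, hwu2, conj_trivial, c1, c2, c3, c4] at hc2
    have hcs := Real.sin_sq_add_cos_sq ν
    have h3 : r * (R * (cos s * ((T e ν * cos ν - sin ν) * inner ℝ u₂ u₁
          + (T e ν * sin ν + cos ν) * inner ℝ w₂ u₁)
        + sin s * ((T e ν * cos ν - sin ν) * inner ℝ u₂ w₁
          + (T e ν * sin ν + cos ν) * inner ℝ w₂ w₁)) + r * T e ν) = 0 := by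
      linear_combination (-τ) * hc2
        + (R * (cos s * inner ℝ u₂ u₁ + sin s * inner ℝ u₂ w₁) + r * cos ν) * e3
        + (R * (cos s * inner ℝ w₂ u₁ + sin s * inner ℝ w₂ w₁) + r * sin ν) * e4
        - r ^ 2 * T e ν * hcs
    have h4 := (mul_eq_zero.mp h3).resolve_left hr
    linarith

/-- algebra for the generic position -/
theorem generic_real {R r e ν c sn A1 A2 B1 B2 μ η : ℝ}
    (hs : μ ^ 2 + η ^ 2 < 1)
    (r1 : A1 ^ 2 + B1 ^ 2 + μ ^ 2 = 1) (r2 : A2 ^ 2 + B2 ^ 2 + η ^ 2 = 1)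
    (r3 : A1 * A2 + B1 * B2 + μ * η = 0) (hcs : c ^ 2 + sn ^ 2 = 1)
    (h5 : (cos ν * A1 + sin ν * A2) * sn = (cos ν * B1 + sin ν * B2) * c)
    (h6 : R * (c * ((T e ν * cos ν - sin ν) * A1 + (T e ν * sin ν + cos ν) * A2)
        + sn * ((T e ν * cos ν - sin ν) * B1 + (T e ν * sin ν + cos ν) * B2)) =
        -(r * T e ν)) :
    ∃ ε : ℝ, (ε = 1 ∨ ε = -1) ∧
      ε * (R * (√(sg μ η ν) * (T e ν - g μ η ν))) = r * T e ν ∧
      c = -(ε * (cos ν * A1 + sin ν * A2) / √(sg μ η ν)) ∧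
      sn = -(ε * (cos ν * B1 + sin ν * B2) / √(sg μ η ν)) := by
  have hsg := sg_pos hs ν
  have hsq := Real.sqrt_pos.mpr hsg
  have hsq2 := Real.sq_sqrt hsg.le
  have htr := Real.sin_sq_add_cos_sq ν
  set α := cos ν * A1 + sin ν * A2 with hα
  set β := cos ν * B1 + sin ν * B2 with hβ
  set m := α * c + β * sn with hm
  have hαm : α = m * c := by
    rw [hm]; linear_combination (-α) * hcs + sn * h5
  have hβm : β = m * sn := by
    rw [hm]; linear_combination (-β) * hcs - c * h5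
  have hsum : α ^ 2 + β ^ 2 = sg μ η ν := by
    rw [hα, hβ]
    unfold sg X
    linear_combination cos ν ^ 2 * r1 + sin ν ^ 2 * r2 + 2 * sin ν * cos ν * r3 + htr
  have hm2 : m ^ 2 = sg μ η ν := by
    rw [← hsum, hαm, hβm]; linear_combination (-m ^ 2) * hcs
  have hdot : α * ((T e ν * cos ν - sin ν) * A1 + (T e ν * sin ν + cos ν) * A2)
      + β * ((T e ν * cos ν - sin ν) * B1 + (T e ν * sin ν + cos ν) * B2)
      = sg μ η ν * (T e ν - g μ η ν) := by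
    have h7 : sg μ η ν * (T e ν - g μ η ν) = T e ν * sg μ η ν - X μ η ν * Z μ η ν := by
      unfold g; field_simp
    rw [h7, hα, hβ]
    unfold sg X Z
    linear_combination (cos ν * (T e ν * cos ν - sin ν)) * r1
      + (sin ν * (T e ν * sin ν + cos ν)) * r2
      + (cos ν * (T e ν * sin ν + cos ν) + sin ν * (T e ν * cos ν - sin ν)) * r3
      + T e ν * htr
  have hmul : R * (sg μ η ν * (T e ν - g μ η ν)) = -(r * T e ν) * m := by
    rw [← hdot, ← h6]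
    nth_rewrite 1 [hαm]
    nth_rewrite 1 [hβm]
    ring
  have hmabs : m = √(sg μ η ν) ∨ m = -√(sg μ η ν) := by
    have : m ^ 2 = √(sg μ η ν) ^ 2 := by rw [hm2, hsq2]
    exact sq_eq_sq_iff_eq_or_eq_neg.mp this
  rcases hmabs with hmm | hmm
  · refine ⟨-1, Or.inr rfl, ?_, ?_, ?_⟩
    · have h8 : √(sg μ η ν) * (-1 * (R * (√(sg μ η ν) * (T e ν - g μ η ν))) - r * T e ν) = 0 := by
        rw [hmm] at hmul
        have : √(sg μ η ν) * √(sg μ η ν) = sg μ η ν := by rw [← sq]; exact hsq2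
        linear_combination (-1) * hmul - R * (T e ν - g μ η ν) * this
      have h9 := (mul_eq_zero.mp h8).resolve_left hsq.ne'
      linarith
    · rw [hαm, hmm]; field_simp
    · rw [hβm, hmm]; field_simp
  · refine ⟨1, Or.inl rfl, ?_, ?_, ?_⟩
    · have h8 : √(sg μ η ν) * (1 * (R * (√(sg μ η ν) * (T e ν - g μ η ν))) - r * T e ν) = 0 := by
        rw [hmm] at hmul
        have : √(sg μ η ν) * √(sg μ η ν) = sg μ η ν := by rw [← sq]; exact hsq2
        linear_combination hmul + R * (T e ν - g μ η ν) * this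
      have h9 := (mul_eq_zero.mp h8).resolve_left hsq.ne'
      linarith
    · rw [hαm, hmm]; field_simp
    · rw [hβm, hmm]; field_simp

/-- algebra for orthogonal planes -/
theorem perp_real {R r e ν c sn A1 A2 B1 B2 μ η : ℝ} (hR : 0 < R)
    (hs : μ ^ 2 + η ^ 2 = 1)
    (r1 : A1 ^ 2 + B1 ^ 2 + μ ^ 2 = 1) (r2 : A2 ^ 2 + B2 ^ 2 + η ^ 2 = 1)
    (r3 : A1 * A2 + B1 * B2 + μ * η = 0) (hcs : c ^ 2 + sn ^ 2 = 1)
    (h5 : (cos ν * A1 + sin ν * A2) * sn = (cos ν * B1 + sin ν * B2) * c)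
    (h6 : R * (c * ((T e ν * cos ν - sin ν) * A1 + (T e ν * sin ν + cos ν) * A2)
        + sn * ((T e ν * cos ν - sin ν) * B1 + (T e ν * sin ν + cos ν) * B2)) =
        -(r * T e ν)) :
    (∃ ε : ℝ, (ε = 1 ∨ ε = -1) ∧
      -(ε * (R * (T e ν * Z μ η ν - X μ η ν))) = r * T e ν ∧
      c = ε * (η * A1 - μ * A2) ∧ sn = ε * (η * B1 - μ * B2)) ∨
    (Z μ η ν = 0 ∧ ∃ ε : ℝ, (ε = 1 ∨ ε = -1) ∧
      c = (η * A1 - μ * A2) * (X μ η ν * (r * T e ν) / R)
        - (η * B1 - μ * B2) * (ε * √(1 - (X μ η ν * (r * T e ν) / R) ^ 2)) ∧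
      sn = (η * B1 - μ * B2) * (X μ η ν * (r * T e ν) / R)
        + (η * A1 - μ * A2) * (ε * √(1 - (X μ η ν * (r * T e ν) / R) ^ 2))) := by
  have hzero : (μ * A1 + η * A2) ^ 2 + (μ * B1 + η * B2) ^ 2 = 0 := by
    linear_combination μ ^ 2 * r1 + η ^ 2 * r2 + 2 * μ * η * r3 - (μ ^ 2 + η ^ 2) * hs
  have z1 : μ * A1 + η * A2 = 0 := by
    nlinarith [sq_nonneg (μ * A1 + η * A2), sq_nonneg (μ * B1 + η * B2)]
  have z2 : μ * B1 + η * B2 = 0 := by
    nlinarith [sq_nonneg (μ * A1 + η * A2), sq_nonneg (μ * B1 + η * B2)]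
  set A := η * A1 - μ * A2 with hA
  set B := η * B1 - μ * B2 with hB
  have a1 : A1 = η * A := by rw [hA]; linear_combination (-A1) * hs + μ * z1
  have a2 : A2 = -(μ * A) := by rw [hA]; linear_combination (-A2) * hs + η * z1
  have b1 : B1 = η * B := by rw [hB]; linear_combination (-B1) * hs + μ * z2
  have b2 : B2 = -(μ * B) := by rw [hB]; linear_combination (-B2) * hs + η * z2
  have hAB : A ^ 2 + B ^ 2 = 1 := by
    have h7 : (A ^ 2 + B ^ 2) * (μ ^ 2 + η ^ 2) = 1 := by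
      have e1 : A1 ^ 2 + A2 ^ 2 + B1 ^ 2 + B2 ^ 2 = 1 := by linarith
      rw [a1, a2, b1, b2] at e1
      linear_combination e1
    rw [hs, mul_one] at h7
    exact h7
  have h5' : Z μ η ν * (A * sn - B * c) = 0 := by
    rw [a1, a2, b1, b2] at h5
    unfold Z
    linear_combination h5
  have h6' : R * ((T e ν * Z μ η ν - X μ η ν) * (A * c + B * sn)) = -(r * T e ν) := by
    rw [← h6, a1, a2, b1, b2]
    unfold X Z
    ring
  rcases mul_eq_zero.mp h5' with hz | hz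
  · right
    refine ⟨hz, ?_⟩
    have hX2 : X μ η ν ^ 2 = 1 := by
      have := X_sq_add_Z_sq μ η ν
      rw [hz, hs] at this
      linarith
    have hχ : A * c + B * sn = X μ η ν * (r * T e ν) / R := by
      rw [hz] at h6'
      field_simp
      linear_combination (-X μ η ν) * h6' - R * (A * c + B * sn) * hX2
    rw [← hχ]
    have hτ : (A * sn - B * c) ^ 2 = 1 - (A * c + B * sn) ^ 2 := by
      linear_combination (c ^ 2 + sn ^ 2) * hAB + hcs
    have hc' : c = A * (A * c + B * sn) - B * (A * sn - B * c) := by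
      linear_combination (-c) * hAB
    have hsn' : sn = B * (A * c + B * sn) + A * (A * sn - B * c) := by
      linear_combination (-sn) * hAB
    rcases le_or_gt 0 (A * sn - B * c) with hp | hp
    · have hsq : √(1 - (A * c + B * sn) ^ 2) = A * sn - B * c := by
        rw [← hτ, Real.sqrt_sq hp]
      refine ⟨1, Or.inl rfl, ?_, ?_⟩
      · rw [hsq, one_mul]; exact hc'
      · rw [hsq, one_mul]; exact hsn'
    · have hsq : √(1 - (A * c + B * sn) ^ 2) = -(A * sn - B * c) := by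
        rw [← hτ, ← neg_sq, Real.sqrt_sq (by linarith)]
      refine ⟨-1, Or.inr rfl, ?_, ?_⟩
      · rw [hsq]; linear_combination hc'
      · rw [hsq]; linear_combination hsn'
  · left
    have hχ2 : (A * c + B * sn) ^ 2 = 1 := by
      linear_combination (c ^ 2 + sn ^ 2) * hAB + hcs - (A * sn - B * c) * hz
    refine ⟨A * c + B * sn, ?_, ?_, ?_, ?_⟩
    · have : (A * c + B * sn) ^ 2 = 1 ^ 2 := by rw [hχ2]; norm_num
      exact sq_eq_sq_iff_eq_or_eq_neg.mp this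
    · linear_combination (-1) * h6'
    · linear_combination (-c) * hAB - B * hz
    · linear_combination (-sn) * hAB + A * hz

/-- **Main theorem.** -/
theorem main {F u₁ w₁ u₂ w₂ : V3} {R a e : ℝ} (hR : 0 < R) (ha : 0 < a)
    (h0 : 0 < e) (h1 : e < 1)
    (hu₁ : ‖u₁‖ = 1) (hw₁ : ‖w₁‖ = 1) (huw₁ : inner ℝ u₁ w₁ = 0)
    (hu₂ : ‖u₂‖ = 1) (hw₂ : ‖w₂‖ = 1) (huw₂ : inner ℝ u₂ w₂ = 0) :
    ({x : V3 × V3 | ∃ s t : ℝ,
      x = (F + (R * cos s) • u₁ + (R * sin s) • w₁,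
        F + (a * (e + cos t)) • u₂ + (a * √(1 - e ^ 2) * sin t) • w₂) ∧
      inner ℝ ((F + (R * cos s) • u₁ + (R * sin s) • w₁) -
        (F + (a * (e + cos t)) • u₂ + (a * √(1 - e ^ 2) * sin t) • w₂))
        ((-(R * sin s)) • u₁ + (R * cos s) • w₁) = 0 ∧
      inner ℝ ((F + (R * cos s) • u₁ + (R * sin s) • w₁) -
        (F + (a * (e + cos t)) • u₂ + (a * √(1 - e ^ 2) * sin t) • w₂))
        ((-(a * sin t)) • u₂ + (a * √(1 - e ^ 2) * cos t) • w₂) = 0}).encard ≤ (10 : ℕ) := by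
  classical
  obtain ⟨n, hn, hpars⟩ := exists_normal u₁ w₁ hu₁ hw₁ huw₁
  have hb2 : 0 < 1 - e ^ 2 := by nlinarith
  have hp : 0 < a * (1 - e ^ 2) := mul_pos ha hb2
  have hu22 : inner ℝ u₂ u₂ = (1 : ℝ) := by rw [real_inner_self_eq_norm_sq, hu₂]; norm_num
  have hw22 : inner ℝ w₂ w₂ = (1 : ℝ) := by rw [real_inner_self_eq_norm_sq, hw₂]; norm_num
  have hnn : inner ℝ n n = (1 : ℝ) := by rw [real_inner_self_eq_norm_sq, hn]; norm_num
  have hwu2 : inner ℝ w₂ u₂ = (0 : ℝ) := by rw [real_inner_comm]; exact huw₂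
  have r1 : (inner ℝ u₂ u₁ : ℝ) ^ 2 + inner ℝ u₂ w₁ ^ 2 + inner ℝ u₂ n ^ 2 = 1 := by
    have := hpars u₂ u₂
    rw [hu22] at this
    linear_combination -this
  have r2 : (inner ℝ w₂ u₁ : ℝ) ^ 2 + inner ℝ w₂ w₁ ^ 2 + inner ℝ w₂ n ^ 2 = 1 := by
    have := hpars w₂ w₂
    rw [hw22] at this
    linear_combination -this
  have r3 : (inner ℝ u₂ u₁ : ℝ) * inner ℝ w₂ u₁ + inner ℝ u₂ w₁ * inner ℝ w₂ w₁
      + inner ℝ u₂ n * inner ℝ w₂ n = 0 := by
    have := hpars u₂ w₂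
    rw [huw₂] at this
    linear_combination -this
  have hbessel : (inner ℝ u₂ n : ℝ) ^ 2 + inner ℝ w₂ n ^ 2 ≤ 1 := by
    have h2 : (0 : ℝ) ≤ inner ℝ (n - (inner ℝ u₂ n : ℝ) • u₂ - (inner ℝ w₂ n : ℝ) • w₂)
        (n - (inner ℝ u₂ n : ℝ) • u₂ - (inner ℝ w₂ n : ℝ) • w₂) := real_inner_self_nonneg
    have c1 : inner ℝ n u₂ = (inner ℝ u₂ n : ℝ) := real_inner_comm _ _
    have c2 : inner ℝ n w₂ = (inner ℝ w₂ n : ℝ) := real_inner_comm _ _
    simp only [inner_sub_left, inner_sub_right, inner_smul_left, inner_smul_right, hnn, hu22,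
      hw22, huw₂, hwu2, c1, c2, conj_trivial] at h2
    linarith
  set A1 : ℝ := inner ℝ u₂ u₁ with hA1
  set B1 : ℝ := inner ℝ u₂ w₁ with hB1
  set A2 : ℝ := inner ℝ w₂ u₁ with hA2
  set B2 : ℝ := inner ℝ w₂ w₁ with hB2
  set μ : ℝ := inner ℝ u₂ n with hμ
  set η : ℝ := inner ℝ w₂ n with hη
  let rr : ℝ → ℝ := fun ν => a * (1 - e ^ 2) / w e ν
  let Qv : ℝ → V3 := fun ν => F + (-(a * (1 - e ^ 2) / w e ν * cos ν)) • u₂
          + (-(a * (1 - e ^ 2) / w e ν * sin ν)) • w₂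
  let Pv : ℝ → ℝ → V3 := fun c sn => F + (R * c) • u₁ + (R * sn) • w₁
  rcases lt_or_eq_of_le hbessel with hs | hs
  · let Ψ : ℝ × ℝ → V3 × V3 := fun x =>
      (Pv (-(x.2 * (cos x.1 * A1 + sin x.1 * A2) / √(sg μ η x.1)))
        (-(x.2 * (cos x.1 * B1 + sin x.1 * B2) / √(sg μ η x.1))), Qv x.1)
    refine le_trans (Set.encard_le_encard (t := Ψ '' (Crit R (a * (1 - e ^ 2)) e μ η)) ?_)
      ((Set.encard_image_le _ _).trans (crit_le_ten hR hp h0 h1 hs))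
    rintro x ⟨s, t, hx, hc1, hc2⟩
    obtain ⟨ν, hν, hQ, h5, h6⟩ := real_system hR ha h0 h1 hu₁ hw₁ huw₁ hu₂ hw₂ huw₂ s t hc1 hc2
    have hcs : cos s ^ 2 + sin s ^ 2 = 1 := by linarith [Real.sin_sq_add_cos_sq s]
    obtain ⟨ε, hε, h7, h8, h9⟩ := generic_real (r := a * (1 - e ^ 2) / w e ν)
      hs r1 r2 r3 hcs h5 h6
    refine ⟨(ν, ε), ⟨hν, hε, h7⟩, ?_⟩
    rw [hx, hQ]
    simp only [Ψ, Pv, Qv]
    rw [← h8, ← h9]
  · let Ψ₁ : ℝ × ℝ → V3 × V3 := fun x =>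
      (Pv (x.2 * (η * A1 - μ * A2)) (x.2 * (η * B1 - μ * B2)), Qv x.1)
    let Ψ₂ : ℝ × ℝ → V3 × V3 := fun x =>
      (Pv ((η * A1 - μ * A2) * (X μ η x.1 * (rr x.1 * T e x.1) / R)
        - (η * B1 - μ * B2) * (x.2 * √(1 - (X μ η x.1 * (rr x.1 * T e x.1) / R) ^ 2)))
        ((η * B1 - μ * B2) * (X μ η x.1 * (rr x.1 * T e x.1) / R)
        + (η * A1 - μ * A2) * (x.2 * √(1 - (X μ η x.1 * (rr x.1 * T e x.1) / R) ^ 2))), Qv x.1)
    have hZ2 := Z_zero_le_two hs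
    have hZfin : {ν ∈ Ioc (-π) π | Z μ η ν = 0}.Finite := Set.finite_of_encard_le_coe hZ2
    have hZn : {ν ∈ Ioc (-π) π | Z μ η ν = 0}.ncard ≤ 2 := by
      rw [← hZfin.cast_ncard_eq] at hZ2
      exact_mod_cast hZ2
    have hprod : ({ν ∈ Ioc (-π) π | Z μ η ν = 0} ×ˢ ({1, -1} : Set ℝ)).encard ≤ (4 : ℕ) := by
      have hf : ({ν ∈ Ioc (-π) π | Z μ η ν = 0} ×ˢ ({1, -1} : Set ℝ)).Finite :=
        hZfin.prod (by simp)
      rw [← hf.cast_ncard_eq, Set.ncard_prod]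
      have h2 : ({1, -1} : Set ℝ).ncard ≤ 2 := (Set.ncard_insert_le _ _).trans (by simp)
      have := Nat.mul_le_mul hZn h2
      exact_mod_cast this
    have hcount : (Ψ₁ '' (CritI R (a * (1 - e ^ 2)) e μ η) ∪
        Ψ₂ '' ({ν ∈ Ioc (-π) π | Z μ η ν = 0} ×ˢ ({1, -1} : Set ℝ))).encard ≤ (10 : ℕ) := by
      calc _ ≤ _ := Set.encard_union_le _ _
        _ ≤ ((6 : ℕ) : ℕ∞) + ((4 : ℕ) : ℕ∞) := add_le_add
            ((Set.encard_image_le _ _).trans (critI_le_six hR hp h0 h1 hs))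
            ((Set.encard_image_le _ _).trans hprod)
        _ = (10 : ℕ) := by norm_num
    refine le_trans (Set.encard_le_encard ?_) hcount
    rintro x ⟨s, t, hx, hc1, hc2⟩
    obtain ⟨ν, hν, hQ, h5, h6⟩ := real_system hR ha h0 h1 hu₁ hw₁ huw₁ hu₂ hw₂ huw₂ s t hc1 hc2
    have hcs : cos s ^ 2 + sin s ^ 2 = 1 := by linarith [Real.sin_sq_add_cos_sq s]
    rcases perp_real (r := a * (1 - e ^ 2) / w e ν) hR hs r1 r2 r3 hcs h5 h6 with
      ⟨ε, hε, h7, h8, h9⟩ | ⟨hz, ε, hε, h8, h9⟩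
    · left
      refine ⟨(ν, ε), ⟨hν, hε, h7⟩, ?_⟩
      rw [hx, hQ]
      simp only [Ψ₁, Pv, Qv]
      rw [← h8, ← h9]
    · right
      refine ⟨(ν, ε), ⟨⟨hν, hz⟩, ?_⟩, ?_⟩
      · rcases hε with h | h <;> simp [h]
      · rw [hx, hQ]
        simp only [Ψ₂, Pv, Qv, rr]
        rw [← h8, ← h9]

end

end Pool.Agent.Zk48.CE
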