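import Pool.Agent.Zk48.CE.Generic

set_option autoImplicit false

namespace Pool.Agent.Zk48.CE

open Real Set Filter Topology

noncomputable section

variable {e μ η : ℝ}

/-- zeros of trigonometric polynomials of degree one -/
theorem trig_zeros_le_two (a0 a1 b1 : ℝ) (hne : ¬ (a0 = 0 ∧ a1 = 0 ∧ b1 = 0)) :
    {ν ∈ Ioc (-π) π | a0 + a1 * cos ν + b1 * sin ν = 0}.encard ≤ (2 : ℕ) := by
  classical
  let P : Polynomial ℂ := Polynomial.C (((a1 : ℂ) - Complex.I * b1) / 2) * Polynomial.X ^ 2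
    + Polynomial.C (a0 : ℂ) * Polynomial.X
    + Polynomial.C (((a1 : ℂ) + Complex.I * b1) / 2)
  have key : ∀ I a0 a1 b1 c s : ℂ, I ^ 2 = -1 → c ^ 2 + s ^ 2 - 1 = 0 →
        (a1 - I * b1) / 2 * (c + s * I) ^ 2
          + a0 * (c + s * I) + (a1 + I * b1) / 2
        = (c + s * I) * (a0 + a1 * c + b1 * s) := by
    intro I a0 a1 b1 c s hI hcs
    have hu1 : (c + s * I) ^ 2 + 1 - 2 * c * (c + s * I) = 0 := by
      linear_combination s ^ 2 * hI - hcs
    have hu2 : (c + s * I) ^ 2 - 1 - 2 * I * s * (c + s * I) = 0 := by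
      linear_combination (- s ^ 2) * hI + hcs
    linear_combination (a1 / 2) * hu1 - (I * b1 / 2) * hu2 - (b1 * s * (c + s * I)) * hI
  have hPeval : ∀ ν : ℝ, P.eval ((Real.cos ν : ℂ) + (Real.sin ν : ℂ) * Complex.I) =
      ((Real.cos ν : ℂ) + (Real.sin ν : ℂ) * Complex.I) *
        ((a0 + a1 * cos ν + b1 * sin ν : ℝ) : ℂ) := by
    intro ν
    have hcs : Real.cos ν ^ 2 + Real.sin ν ^ 2 - 1 = 0 := by
      have := Real.sin_sq_add_cos_sq ν
      linarith
    simp only [P, Polynomial.eval_add, Polynomial.eval_mul, Polynomial.eval_pow,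
      Polynomial.eval_C, Polynomial.eval_X]
    generalize Real.cos ν = c at hcs ⊢
    generalize Real.sin ν = s at hcs ⊢
    have hcs' : (c : ℂ) ^ 2 + (s : ℂ) ^ 2 - 1 = 0 := by exact_mod_cast hcs
    rw [key Complex.I a0 a1 b1 c s Complex.I_sq hcs']
    push_cast
    ring
  have hP0 : P ≠ 0 := by
    intro h0
    have hc1 : P.coeff 1 = a0 := by
      simp [P, Polynomial.coeff_C]
    have hc2 : P.coeff 2 = ((a1 : ℂ) - Complex.I * b1) / 2 := by
      simp [P]
    rw [h0, Polynomial.coeff_zero] at hc1 hc2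
    have h1 : a0 = 0 := by exact_mod_cast hc1.symm
    have h2 : (a1 : ℂ) - Complex.I * b1 = 0 := by
      have := hc2.symm
      linear_combination 2 * this
    have hre := congrArg Complex.re h2
    have him := congrArg Complex.im h2
    simp at hre him
    exact hne ⟨h1, hre, him⟩
  have hdeg : P.natDegree ≤ 2 := by
    simp only [P]
    compute_degree
  set S := {ν ∈ Ioc (-π) π | a0 + a1 * cos ν + b1 * sin ν = 0} with hS
  have hmaps : (fun ν : ℝ => (Real.cos ν : ℂ) + (Real.sin ν : ℂ) * Complex.I) '' S ⊆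
      (P.roots.toFinset : Set ℂ) := by
    rintro _ ⟨ν, hν, rfl⟩
    simp only [Finset.mem_coe, Multiset.mem_toFinset]
    rw [Polynomial.mem_roots hP0]
    show P.eval _ = 0
    rw [hPeval ν, hν.2]
    simp
  have hinj : InjOn (fun ν : ℝ => (Real.cos ν : ℂ) + (Real.sin ν : ℂ) * Complex.I) S :=
    injOn_cis.mono (fun x hx => hx.1)
  calc S.encard = _ := (hinj.encard_image).symm
    _ ≤ (P.roots.toFinset : Set ℂ).encard := Set.encard_le_encard hmaps
    _ = (P.roots.toFinset.card : ℕ) := Set.encard_coe_eq_coe_finsetCard _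
    _ ≤ (2 : ℕ) := by
        exact_mod_cast (Multiset.toFinset_card_le _).trans ((Polynomial.card_roots' P).trans hdeg)

/-- slope function for orthogonal planes -/
def Yp (e μ η ν : ℝ) : ℝ := w e ν * (Z μ η ν - X μ η ν / T e ν)

def Dp (e μ η ν : ℝ) : ℝ :=
  (yy e ν + T e ν ^ 2) * X μ η ν - T e ν * (1 + T e ν ^ 2) * Z μ η ν

theorem hasDerivAt_Yp {ν : ℝ} (hw : w e ν ≠ 0) (hT0 : T e ν ≠ 0) :
    HasDerivAt (Yp e μ η) (w e ν * Dp e μ η ν / T e ν ^ 2) ν := by
  have hT := hasDerivAt_T hw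
  have h1 : HasDerivAt (Yp e μ η) _ ν :=
    (hasDerivAt_w e ν).mul ((hasDerivAt_Z μ η ν).sub ((hasDerivAt_X μ η ν).div hT hT0))
  refine h1.congr_deriv ?_
  have he : e * sin ν = w e ν * T e ν := by unfold T; field_simp
  rw [he]
  unfold Dp
  field_simp
  ring

theorem Dp_eq {ν : ℝ} (hw : w e ν ≠ 0) :
    Dp e μ η ν * w e ν ^ 3 = e * (η * e * sin ν ^ 3
      + μ * (1 + 3 * e * cos ν + e ^ 2 - e * cos ν ^ 3)) := by
  have h1 : Dp e μ η ν * w e ν ^ 3 =
      (e * cos ν * w e ν + e ^ 2 * sin ν ^ 2) * w e ν * X μ η ν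
        - e * sin ν * (w e ν ^ 2 + e ^ 2 * sin ν ^ 2) * Z μ η ν := by
    unfold Dp yy T
    field_simp
  rw [h1]
  have hs2 : sin ν ^ 2 = 1 - cos ν ^ 2 := by linarith [Real.sin_sq_add_cos_sq ν]
  have hs3 : sin ν ^ 3 = sin ν * (1 - cos ν ^ 2) := by rw [← hs2]; ring
  have hs4 : sin ν ^ 4 = (1 - cos ν ^ 2) ^ 2 := by rw [← hs2]; ring
  unfold w X Z
  ring_nf
  simp only [hs2, hs3, hs4]
  ring

def H (e ν : ℝ) : ℝ := (1 + 3 * e * cos ν + e ^ 2 - e * cos ν ^ 3) / sin ν ^ 3

theorem hasDerivAt_H {ν : ℝ} (hν : sin ν ≠ 0) :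
    HasDerivAt (H e) (-3 * (e + cos ν) * (1 + e * cos ν) / sin ν ^ 4) ν := by
  have hc := Real.hasDerivAt_cos ν
  have hs := Real.hasDerivAt_sin ν
  have h1 : HasDerivAt (H e) _ ν :=
    ((((hc.const_mul (3 * e)).const_add 1).add_const (e ^ 2)).sub ((hc.pow 3).const_mul e)).div
      (hs.pow 3) (pow_ne_zero 3 hν)
  refine h1.congr_deriv ?_
  have hs2 : sin ν ^ 2 = 1 - cos ν ^ 2 := by linarith [Real.sin_sq_add_cos_sq ν]
  have hs4 : sin ν ^ 4 = (1 - cos ν ^ 2) ^ 2 := by rw [← hs2]; ring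
  have e1 : (3 * e * -sin ν - e * (3 * cos ν ^ 2 * -sin ν)) * sin ν ^ 3
      - (1 + 3 * e * cos ν + e ^ 2 - e * cos ν ^ 3) * (3 * sin ν ^ 2 * cos ν)
      = -3 * (e + cos ν) * (1 + e * cos ν) * sin ν ^ 2 := by
    ring_nf
    simp only [hs2, hs4]
    ring
  simp only [Pi.pow_apply, Pi.sub_apply]
  push_cast
  rw [div_eq_div_iff (by positivity) (by positivity)]
  norm_num
  linear_combination sin ν ^ 4 * e1

theorem H_num_pos (h0 : 0 < e) (h1 : e < 1) (ν : ℝ) :
    0 < 1 + 3 * e * cos ν + e ^ 2 - e * cos ν ^ 3 := by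
  have h2 := Real.neg_one_le_cos ν
  have h3 := Real.cos_le_one ν
  -- 1 + 3ec + e² - ec³ - (1-e)² = e (2 + 3c - c³) = e (1+c)² (2-c)
  have h4 : 1 + 3 * e * cos ν + e ^ 2 - e * cos ν ^ 3 =
      (1 - e) ^ 2 + e * ((1 + cos ν) ^ 2 * (2 - cos ν)) := by ring
  rw [h4]
  have : 0 < (1 - e) ^ 2 := by
    have : 0 < 1 - e := by linarith
    positivity
  have : 0 ≤ e * ((1 + cos ν) ^ 2 * (2 - cos ν)) := by
    have : 0 ≤ 2 - cos ν := by linarith
    positivity
  linarith

/-- points of an open half where `cos ν = -e` -/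
theorem cos_eq_le_one_upper (e : ℝ) : {x ∈ Ioo 0 π | cos x = -e}.encard ≤ (1 : ℕ) := by
  have := encard_le_of_sep (S := {x ∈ Ioo 0 π | cos x = -e}) (F := ∅) (n := 0) (by simp) ?_
  · simpa using this
  · intro x hx y hy hxy
    have := Real.injOn_cos ⟨hx.1.1.le, hx.1.2.le⟩ ⟨hy.1.1.le, hy.1.2.le⟩ (hx.2.trans hy.2.symm)
    exact absurd this hxy.ne

theorem cos_eq_le_one_lower (e : ℝ) : {x ∈ Ioo (-π) 0 | cos x = -e}.encard ≤ (1 : ℕ) := by
  have := encard_le_of_sep (S := {x ∈ Ioo (-π) 0 | cos x = -e}) (F := ∅) (n := 0) (by simp) ?_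
  · simpa using this
  · intro x hx y hy hxy
    have h2 : cos (-x) = cos (-y) := by rw [Real.cos_neg, Real.cos_neg, hx.2, hy.2]
    have := Real.injOn_cos ⟨by linarith [hx.1.2], by linarith [hx.1.1]⟩
      ⟨by linarith [hy.1.2], by linarith [hy.1.1]⟩ h2
    exact absurd (neg_injective this) hxy.ne

theorem H_level (h0 : 0 < e) (h1 : e < 1) (k : ℝ) {I : Set ℝ} (hI : I.OrdConnected)
    (hsin : ∀ x ∈ I, sin x ≠ 0) (hcos : {x ∈ I | cos x = -e}.encard ≤ (1 : ℕ)) :
    {x ∈ I | H e x = k}.encard ≤ (2 : ℕ) := by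
  refine encard_le_of_sep (S := {x ∈ I | H e x = k}) (F := {x ∈ I | cos x = -e}) (n := 1) hcos ?_
  intro x hx y hy hxy
  have hsub : Icc x y ⊆ I := fun t ht => hI.out hx.1 hy.1 ht
  obtain ⟨z, hz1, hz2⟩ := exists_hasDerivAt_eq_zero (f := H e)
    (f' := fun ν => -3 * (e + cos ν) * (1 + e * cos ν) / sin ν ^ 4) hxy
    (fun t ht => (hasDerivAt_H (hsin t (hsub ht))).continuousAt.continuousWithinAt)
    (hx.2.trans hy.2.symm) (fun t ht => hasDerivAt_H (hsin t (hsub ⟨ht.1.le, ht.2.le⟩)))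
  have hzI : z ∈ I := hsub ⟨hz1.1.le, hz1.2.le⟩
  refine ⟨z, ⟨hzI, ?_⟩, hz1.1, hz1.2⟩
  have hw := w_pos h0 h1 z
  have hz2' : -3 * (e + cos z) * (1 + e * cos z) / sin z ^ 4 = 0 := hz2
  rw [div_eq_zero_iff] at hz2'
  rcases hz2' with h | h
  · rcases mul_eq_zero.mp h with h | h
    · linarith
    · exact absurd h hw.ne'
  · exact absurd h (pow_ne_zero 4 (hsin z hzI))

theorem Dp_zeros (h0 : 0 < e) (h1 : e < 1) (hs : μ ^ 2 + η ^ 2 = 1) :
    ∃ m n : ℕ, {x ∈ Ioo 0 π | Dp e μ η x = 0}.encard ≤ m ∧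
      {x ∈ Ioo (-π) 0 | Dp e μ η x = 0}.encard ≤ n ∧ m + n ≤ 2 ∧ (μ = 0 → m + n = 0) := by
  have hsU : ∀ x ∈ Ioo 0 π, sin x ≠ 0 := fun x hx =>
    (Real.sin_pos_of_pos_of_lt_pi hx.1 hx.2).ne'
  have hsL : ∀ x ∈ Ioo (-π) 0, sin x ≠ 0 := fun x hx =>
    (Real.sin_neg_of_neg_of_neg_pi_lt hx.2 hx.1).ne
  have hiff : ∀ x : ℝ, sin x ≠ 0 → Dp e μ η x = 0 → η * e + μ * H e x = 0 := by
    intro x hx h
    have hw := w_pos h0 h1 x
    have h2 := Dp_eq (e := e) (μ := μ) (η := η) hw.ne'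
    rw [h, zero_mul] at h2
    have h3 := (mul_eq_zero.mp h2.symm).resolve_left h0.ne'
    unfold H
    field_simp
    linear_combination h3
  have hHU : ∀ x ∈ Ioo 0 π, 0 < H e x := fun x hx =>
    div_pos (H_num_pos h0 h1 x) (pow_pos (Real.sin_pos_of_pos_of_lt_pi hx.1 hx.2) 3)
  have hHL : ∀ x ∈ Ioo (-π) 0, H e x < 0 := fun x hx =>
    div_neg_of_pos_of_neg (H_num_pos h0 h1 x)
      (Odd.pow_neg (by decide) (Real.sin_neg_of_neg_of_neg_pi_lt hx.2 hx.1))
  by_cases hμ : μ = 0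
  · refine ⟨0, 0, ?_, ?_, by norm_num, fun _ => rfl⟩
    · rw [Nat.cast_zero, nonpos_iff_eq_zero, Set.encard_eq_zero, Set.eq_empty_iff_forall_notMem]
      rintro x ⟨hx, h⟩
      have := hiff x (hsU x hx) h
      rw [hμ, zero_mul, add_zero] at this
      have hη : η ≠ 0 := by
        intro hη
        rw [hμ, hη] at hs
        norm_num at hs
      exact mul_ne_zero hη h0.ne' this
    · rw [Nat.cast_zero, nonpos_iff_eq_zero, Set.encard_eq_zero, Set.eq_empty_iff_forall_notMem]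
      rintro x ⟨hx, h⟩
      have := hiff x (hsL x hx) h
      rw [hμ, zero_mul, add_zero] at this
      have hη : η ≠ 0 := by
        intro hη
        rw [hμ, hη] at hs
        norm_num at hs
      exact mul_ne_zero hη h0.ne' this
  · have hH : ∀ x : ℝ, η * e + μ * H e x = 0 → H e x = -(η * e) / μ := by
      intro x hx
      field_simp
      linarith
    rcases le_or_gt (-(η * e) / μ) 0 with hk | hk
    · refine ⟨0, 2, ?_, ?_, by norm_num, fun h => absurd h hμ⟩
      · rw [Nat.cast_zero, nonpos_iff_eq_zero, Set.encard_eq_zero,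
          Set.eq_empty_iff_forall_notMem]
        rintro x ⟨hx, h⟩
        have h2 := hH x (hiff x (hsU x hx) h)
        have := hHU x hx
        linarith
      · refine le_trans (Set.encard_le_encard ?_)
          (H_level h0 h1 (-(η * e) / μ) ordConnected_Ioo hsL (cos_eq_le_one_lower e))
        rintro x ⟨hx, h⟩
        exact ⟨hx, hH x (hiff x (hsL x hx) h)⟩
    · refine ⟨2, 0, ?_, ?_, by norm_num, fun h => absurd h hμ⟩
      · refine le_trans (Set.encard_le_encard ?_)
          (H_level h0 h1 (-(η * e) / μ) ordConnected_Ioo hsU (cos_eq_le_one_upper e))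
        rintro x ⟨hx, h⟩
        exact ⟨hx, hH x (hiff x (hsU x hx) h)⟩
      · rw [Nat.cast_zero, nonpos_iff_eq_zero, Set.encard_eq_zero,
          Set.eq_empty_iff_forall_notMem]
        rintro x ⟨hx, h⟩
        have h2 := hH x (hiff x (hsL x hx) h)
        have := hHL x hx
        linarith

/-- pairs for orthogonal planes, points off the axis or on it with sign -/
def CritI (R p e μ η : ℝ) : Set (ℝ × ℝ) :=
  {x | x.1 ∈ Ioc (-π) π ∧ (x.2 = 1 ∨ x.2 = -1) ∧
    -(x.2 * (R * (T e x.1 * Z μ η x.1 - X μ η x.1))) = p / w e x.1 * T e x.1}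

theorem critI_le_six {R p : ℝ} (hR : 0 < R) (hp : 0 < p) (h0 : 0 < e) (h1 : e < 1)
    (hs : μ ^ 2 + η ^ 2 = 1) : (CritI R p e μ η).encard ≤ (6 : ℕ) := by
  classical
  set V := {ν ∈ Ioc (-π) π | e * μ + μ * cos ν + η * sin ν = 0} with hV
  have hV2 : V.encard ≤ (2 : ℕ) := by
    apply trig_zeros_le_two
    rintro ⟨-, h2, h3⟩
    rw [h2, h3] at hs
    norm_num at hs
  have hVfin : V.Finite := Set.finite_of_encard_le_coe hV2
  set VU := {ν ∈ Ioo 0 π | e * μ + μ * cos ν + η * sin ν = 0} with hVU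
  set VL := {ν ∈ Ioo (-π) 0 | e * μ + μ * cos ν + η * sin ν = 0} with hVL
  have hsubU : VU ⊆ V := fun x hx => ⟨⟨by linarith [hx.1.1, Real.pi_pos], hx.1.2.le⟩, hx.2⟩
  have hsubL : VL ⊆ V := fun x hx => ⟨⟨hx.1.1, by linarith [hx.1.2, Real.pi_pos]⟩, hx.2⟩
  have hsum : VU.ncard + VL.ncard ≤ 2 := by
    have hUL : Disjoint VU VL := by
      rw [Set.disjoint_left]
      intro x hx hy
      linarith [hx.1.1, hy.1.2]
    rw [← Set.ncard_union_eq hUL (hVfin.subset hsubU) (hVfin.subset hsubL)]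
    have h5 : (VU ∪ VL).ncard ≤ V.ncard :=
      Set.ncard_le_ncard (union_subset hsubU hsubL) hVfin
    have h6 : V.ncard ≤ 2 := by
      rw [← hVfin.cast_ncard_eq] at hV2
      exact_mod_cast hV2
    omega
  obtain ⟨m, n, hm, hn, hmn, hmn0⟩ := Dp_zeros (e := e) (μ := μ) (η := η) h0 h1 hs
  have hk : 0 < p / R := div_pos hp hR
  have hYzero : ∀ x : ℝ, sin x ≠ 0 →
      (Yp e μ η x = 0 → e * μ + μ * cos x + η * sin x = 0) := by
    intro x hx h
    have hw := w_pos h0 h1 x
    have hT : T e x ≠ 0 := div_ne_zero (mul_ne_zero h0.ne' hx) hw.ne'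
    unfold Yp at h
    have h2 := (mul_eq_zero.mp h).resolve_left hw.ne'
    have h3 : T e x * Z μ η x - X μ η x = 0 := by
      field_simp at h2
      linarith
    have h4 : e * sin x * Z μ η x - w e x * X μ η x = 0 := by
      have : e * sin x = w e x * T e x := by unfold T; field_simp
      rw [this]
      linear_combination w e x * h3
    have h5 : e * sin x * Z μ η x - w e x * X μ η x =
        -(e * μ + μ * cos x + η * sin x) := by
      unfold w X Z
      linear_combination (-(e * μ)) * Real.sin_sq_add_cos_sq x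
    linarith
  have hYder : ∀ x : ℝ, sin x ≠ 0 →
      (w e x * Dp e μ η x / T e x ^ 2 = 0 → Dp e μ η x = 0) := by
    intro x hx h
    have hw := w_pos h0 h1 x
    have hT : T e x ≠ 0 := div_ne_zero (mul_ne_zero h0.ne' hx) hw.ne'
    rw [div_eq_zero_iff, or_iff_left (pow_ne_zero 2 hT)] at h
    exact (mul_eq_zero.mp h).resolve_left hw.ne'
  have hYd : ∀ x : ℝ, sin x ≠ 0 →
      HasDerivAt (Yp e μ η) (w e x * Dp e μ η x / T e x ^ 2) x := by
    intro x hx
    have hw := w_pos h0 h1 x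
    have hT : T e x ≠ 0 := div_ne_zero (mul_ne_zero h0.ne' hx) hw.ne'
    exact hasDerivAt_Yp hw.ne' hT
  have hsU : ∀ x ∈ Ioo 0 π, sin x ≠ 0 := fun x hx =>
    (Real.sin_pos_of_pos_of_lt_pi hx.1 hx.2).ne'
  have hsL : ∀ x ∈ Ioo (-π) 0, sin x ≠ 0 := fun x hx =>
    (Real.sin_neg_of_neg_of_neg_pi_lt hx.2 hx.1).ne
  have hU := level_le (Y := Yp e μ η)
    (Y' := fun x => w e x * Dp e μ η x / T e x ^ 2) (I := Ioo 0 π)
    ordConnected_Ioo (fun x hx => hYd x (hsU x hx)) hk (m := m) (n := VU.ncard)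
    (by
      refine le_trans (Set.encard_le_encard ?_) hm
      rintro x ⟨hx, h⟩
      exact ⟨hx, hYder x (hsU x hx) h⟩)
    (by
      rw [(hVfin.subset hsubU).cast_ncard_eq]
      apply Set.encard_le_encard
      rintro x ⟨hx, h⟩
      exact ⟨hx, hYzero x (hsU x hx) h⟩)
  have hL := level_le (Y := Yp e μ η)
    (Y' := fun x => w e x * Dp e μ η x / T e x ^ 2) (I := Ioo (-π) 0)
    ordConnected_Ioo (fun x hx => hYd x (hsL x hx)) hk (m := n) (n := VL.ncard)
    (by
      refine le_trans (Set.encard_le_encard ?_) hn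
      rintro x ⟨hx, h⟩
      exact ⟨hx, hYder x (hsL x hx) h⟩)
    (by
      rw [(hVfin.subset hsubL).cast_ncard_eq]
      apply Set.encard_le_encard
      rintro x ⟨hx, h⟩
      exact ⟨hx, hYzero x (hsL x hx) h⟩)
  set V0 : Set ℝ := {ν ∈ ({0, π} : Set ℝ) | X μ η ν = 0} with hV0
  have hCrit : CritI R p e μ η ⊆
      (fun x => (x, -(Yp e μ η x / (p / R)))) ''
        ({x ∈ Ioo 0 π | |Yp e μ η x| = p / R} ∪ {x ∈ Ioo (-π) 0 | |Yp e μ η x| = p / R})
      ∪ V0 ×ˢ ({1, -1} : Set ℝ) := by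
    rintro ⟨x, ε⟩ ⟨hx, hε, heq⟩
    simp only at hx hε heq
    have hw := w_pos h0 h1 x
    by_cases hsin : sin x = 0
    · right
      have hx0 : x = 0 ∨ x = π := by
        rcases eq_or_lt_of_le hx.2 with h | h
        · exact Or.inr h
        · left
          exact (Real.sin_eq_zero_iff_of_lt_of_lt hx.1 h).mp hsin
      have hT : T e x = 0 := by unfold T; rw [hsin]; simp
      rw [hT, mul_zero, zero_mul, zero_sub] at heq
      have hε0 : ε ≠ 0 := by rcases hε with h | h <;> rw [h] <;> norm_num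
      have hX0 : X μ η x = 0 := by
        have h2 := (mul_eq_zero.mp (neg_eq_zero.mp heq)).resolve_left hε0
        have h3 := (mul_eq_zero.mp h2).resolve_left hR.ne'
        linarith
      refine ⟨⟨?_, hX0⟩, ?_⟩
      · rcases hx0 with h | h <;> simp [h]
      · rcases hε with h | h <;> simp [h]
    · left
      have hT : T e x ≠ 0 := div_ne_zero (mul_ne_zero h0.ne' hsin) hw.ne'
      have hY : Yp e μ η x = -ε * (p / R) := by
        have hε2 : ε * ε = 1 := by rcases hε with h | h <;> rw [h] <;> norm_num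
        have h2 : Yp e μ η x * (R * T e x) = w e x * (R * (T e x * Z μ η x - X μ η x)) := by
          unfold Yp; field_simp
        have h3 : R * (T e x * Z μ η x - X μ η x) = -ε * (p / w e x * T e x) := by
          linear_combination (-ε) * heq - (R * (T e x * Z μ η x - X μ η x)) * hε2
        rw [h3] at h2
        have h4 : R * T e x ≠ 0 := mul_ne_zero hR.ne' hT
        apply mul_right_cancel₀ h4
        rw [h2]
        field_simp
      have hYabs : |Yp e μ η x| = p / R := by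
        rw [hY, abs_mul, abs_of_pos hk]
        rcases hε with h | h <;> rw [h] <;> norm_num
      refine ⟨x, ?_, ?_⟩
      · rcases lt_trichotomy x 0 with h | h | h
        · exact Or.inr ⟨⟨hx.1, h⟩, hYabs⟩
        · exact absurd (by rw [h]; exact Real.sin_zero) hsin
        · refine Or.inl ⟨⟨h, ?_⟩, hYabs⟩
          rcases eq_or_lt_of_le hx.2 with h' | h'
          · exact absurd (by rw [h']; exact Real.sin_pi) hsin
          · exact h'
      · simp only [Prod.mk.injEq, true_and]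
        rw [hY]
        field_simp
  have hcount : (CritI R p e μ η).encard ≤
      ((m + VU.ncard + 1 : ℕ) : ℕ∞) + ((n + VL.ncard + 1 : ℕ) : ℕ∞)
        + (V0 ×ˢ ({1, -1} : Set ℝ)).encard := by
    calc (CritI R p e μ η).encard ≤ _ := Set.encard_le_encard hCrit
      _ ≤ _ := Set.encard_union_le _ _
      _ ≤ _ := by
        gcongr
        exact (Set.encard_image_le _ _).trans
          ((Set.encard_union_le _ _).trans (add_le_add hU hL))
  by_cases hμ : μ = 0
  · have hη : η ≠ 0 := by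
      intro hη
      rw [hμ, hη] at hs
      norm_num at hs
    have hVUe : VU = ∅ := by
      rw [Set.eq_empty_iff_forall_notMem]
      rintro x ⟨hx, h⟩
      rw [hμ] at h
      have : η * sin x = 0 := by linarith
      exact mul_ne_zero hη (hsU x hx) this
    have hVLe : VL = ∅ := by
      rw [Set.eq_empty_iff_forall_notMem]
      rintro x ⟨hx, h⟩
      rw [hμ] at h
      have : η * sin x = 0 := by linarith
      exact mul_ne_zero hη (hsL x hx) this
    have hV0c : V0.ncard ≤ 2 := by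
      refine le_trans (Set.ncard_le_ncard (t := ({0, π} : Set ℝ)) (fun x hx => hx.1)
        (by simp)) ?_
      exact (Set.ncard_insert_le _ _).trans (by simp)
    have hprod : (V0 ×ˢ ({1, -1} : Set ℝ)).encard ≤ ((V0.ncard * 2 : ℕ) : ℕ∞) := by
      have hf0 : V0.Finite := (by simp : ({0, π} : Set ℝ).Finite).subset (fun x hx => hx.1)
      have hf : (V0 ×ˢ ({1, -1} : Set ℝ)).Finite := hf0.prod (by simp)
      rw [← hf.cast_ncard_eq, Set.ncard_prod]
      norm_cast
      apply Nat.mul_le_mul_left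
      exact (Set.ncard_insert_le _ _).trans (by simp)
    refine hcount.trans ?_
    refine (add_le_add (le_refl _) hprod).trans ?_
    have := hmn0 hμ
    rw [hVUe, hVLe, Set.ncard_empty]
    norm_cast
    omega
  · have hV0e : V0 = ∅ := by
      rw [Set.eq_empty_iff_forall_notMem]
      rintro x ⟨hx, h⟩
      rcases hx with hx | hx
      · subst hx
        unfold X at h
        simp at h
        exact hμ h
      · rw [mem_singleton_iff] at hx; subst hx
        unfold X at h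
        simp at h
        exact hμ h
    rw [hV0e] at hcount
    simp only [Set.empty_prod, Set.encard_empty, add_zero] at hcount
    refine hcount.trans ?_
    norm_cast
    omega

/-- points of the ellipse on the axis of the circle -/
theorem Z_zero_le_two (hs : μ ^ 2 + η ^ 2 = 1) :
    {ν ∈ Ioc (-π) π | Z μ η ν = 0}.encard ≤ (2 : ℕ) := by
  have h := trig_zeros_le_two 0 η (-μ) (by
    rintro ⟨-, h2, h3⟩
    rw [h2, neg_eq_zero.mp h3] at hs
    norm_num at hs)
  refine le_trans (Set.encard_le_encard ?_) h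
  rintro x ⟨hx, h2⟩
  refine ⟨hx, ?_⟩
  unfold Z at h2
  linarith

end

end Pool.Agent.Zk48.CE
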